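import Mathlib

set_option autoImplicit false

/-! Nilmanifolds of unitriangular matrices: definitions (helper318). -/

namespace Pool.Agent.N318.LS

open Polynomial

/-- unitriangular -/
def Uni {m : ℕ} {R : Type} [Zero R] [One R] (A : Matrix (Fin m) (Fin m) R) : Prop :=
  (∀ i, A i i = 1) ∧ ∀ i j, j < i → A i j = 0

/-- invariant under the integer unitriangular matrices on the right -/
def Inv {m : ℕ} (F : Matrix (Fin m) (Fin m) ℝ → ℂ) : Prop :=
  ∀ (A : Matrix (Fin m) (Fin m) ℝ) (g : Matrix (Fin m) (Fin m) ℤ), Uni A → Uni g → F (A * g.map (fun z => (z : ℝ))) = F A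

/-- Lipschitz on the unitriangular matrices with entries bounded by `R` -/
def LipB {m : ℕ} (F : Matrix (Fin m) (Fin m) ℝ → ℂ) (K R : ℝ) : Prop :=
  ∀ A B : Matrix (Fin m) (Fin m) ℝ, Uni A → Uni B → (∀ i j, |A i j| ≤ R ∧ |B i j| ≤ R) → ∀ η : ℝ,
    (∀ i j, |A i j - B i j| ≤ η) → ‖F A - F B‖ ≤ K * η

/-- an integer matrix as a real matrix -/
def rl {m : ℕ} (g : Matrix (Fin m) (Fin m) ℤ) : Matrix (Fin m) (Fin m) ℝ := g.map (fun z => (z : ℝ))

/-- `G` is a closed group of unitriangular real matrices whose integer points are cocompact. -/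
structure Nilm {m : ℕ} (G : Set (Matrix (Fin m) (Fin m) ℝ)) : Prop where
  uni : ∀ A ∈ G, Uni A
  mul : ∀ A ∈ G, ∀ B ∈ G, A * B ∈ G
  inv : ∀ A ∈ G, ∃ B ∈ G, A * B = 1
  closed : IsClosed G
  cocompact : ∃ R : ℝ, ∀ A ∈ G, ∃ a ∈ G, ∃ g : Matrix (Fin m) (Fin m) ℤ, rl g ∈ G ∧ A = a * rl g ∧ ∀ i j, |a i j| ≤ R

/-- the value of a polynomial matrix -/
noncomputable def ev {m : ℕ} (Q : Matrix (Fin m) (Fin m) ℝ[X]) (h : ℕ) : Matrix (Fin m) (Fin m) ℝ :=
  fun i j => (Q i j).eval (h : ℝ)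

end Pool.Agent.N318.LS
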