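import Mathlib
import Pool.Agent.W136.RF.As

set_option autoImplicit false

/-! Random sign changes at the primes of a bounded function: exponential moments of the short sums (helper318). -/

namespace Pool.Agent.N318.LS

open Finset MeasureTheory ProbabilityTheory Filter Topology
open Pool.Agent.W136.RF (cm cm_abs WW SS as_main)

/-- the exponential moments of the sums `∑ v_h f(n+h)`, in logarithmic mean over `n`, are at most Gaussian -/
def MG (f : ℕ → ℝ) : Prop := ∀ (H : ℕ) (v : ℕ →₀ ℚ) (lam : ℚ), (∀ h, |v h| ≤ 1) → ∀ η : ℝ, 0 < η → ∀ᶠ N : ℕ in atTop,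
  ∑ n ∈ Icc 1 N, Real.exp (lam * ∑ h ∈ Icc 1 H, (v h : ℝ) * f (n + h)) / n ≤
    (Real.exp ((lam : ℝ) ^ 2 * H / 2) + η) * Real.log N

lemma abs_sinh_le_cosh (x : ℝ) : |Real.sinh x| ≤ Real.cosh x := by
  rw [abs_le]
  constructor
  · have := Real.exp_pos x
    rw [← Real.cosh_add_sinh] at this
    linarith
  · have := Real.exp_pos (-x)
    rw [← Real.cosh_sub_sinh] at this
    linarith

lemma cosh_le_of_abs_le {x y : ℝ} (h : |x| ≤ |y|) : Real.cosh x ≤ Real.cosh y := by
  rw [← Real.cosh_abs x, ← Real.cosh_abs y]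
  exact Real.cosh_le_cosh.2 (by rwa [abs_abs, abs_abs])

lemma exp_sign {x e : ℝ} (he : e = 1 ∨ e = -1) : Real.exp (x * e) = e * Real.sinh x + Real.cosh x := by
  rcases he with rfl | rfl
  · rw [mul_one, ← Real.cosh_add_sinh]; ring
  · rw [mul_neg_one, ← Real.cosh_sub_sinh]; ring

/-- the deterministic weight of the set `A` of shifts -/
noncomputable def wt (g : ℕ → ℝ) (H : ℕ) (v : ℕ →₀ ℚ) (lam : ℚ) (A : Finset ℕ) (n : ℕ) : ℝ :=
  (∏ h ∈ A, Real.sinh (lam * (v h * g (n + h)))) * ∏ h ∈ Icc 1 H \ A, Real.cosh (lam * (v h * g (n + h)))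

lemma wt_bd {g : ℕ → ℝ} (hg : ∀ n, |g n| ≤ 1) (H : ℕ) {v : ℕ →₀ ℚ} (hv : ∀ h, |v h| ≤ 1) (lam : ℚ) {A : Finset ℕ}
    (hA : A ⊆ Icc 1 H) (n : ℕ) : |wt g H v lam A n| ≤ Real.cosh lam ^ H := by
  have h1 : ∀ h, Real.cosh (lam * (v h * g (n + h))) ≤ Real.cosh lam := by
    intro h
    apply cosh_le_of_abs_le
    rw [abs_mul, abs_mul]
    have h2 : |((v h : ℚ) : ℝ)| ≤ 1 := by exact_mod_cast hv h
    have h3 := hg (n + h)
    have h4 : |((v h : ℚ) : ℝ)| * |g (n + h)| ≤ 1 := mul_le_one₀ h2 (abs_nonneg _) h3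
    nlinarith [abs_nonneg (lam : ℝ)]
  unfold wt
  rw [abs_mul, abs_prod, abs_prod]
  have hc1 : (1 : ℝ) ≤ Real.cosh lam := Real.one_le_cosh _
  calc (∏ h ∈ A, |Real.sinh (lam * (v h * g (n + h)))|) * ∏ h ∈ Icc 1 H \ A, |Real.cosh (lam * (v h * g (n + h)))|
      ≤ (∏ _h ∈ A, Real.cosh lam) * ∏ _h ∈ Icc 1 H \ A, Real.cosh lam := by
        apply mul_le_mul
        · exact prod_le_prod (fun h _ => abs_nonneg _) fun h _ => (abs_sinh_le_cosh _).trans (h1 h)
        · apply prod_le_prod (fun h _ => abs_nonneg _)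
          intro h _
          rw [abs_of_pos (Real.cosh_pos _)]
          exact h1 h
        · exact prod_nonneg fun h _ => abs_nonneg _
        · exact prod_nonneg fun h _ => (Real.cosh_pos _).le
    _ = Real.cosh lam ^ H := by
        rw [prod_const, prod_const, ← pow_add, card_sdiff_of_subset hA, Nat.card_Icc]
        have h5 := card_le_card hA
        rw [Nat.card_Icc] at h5
        congr 1
        omega

lemma expand {g e : ℕ → ℝ} (he : ∀ n, e n = 1 ∨ e n = -1) (H : ℕ) (v : ℕ →₀ ℚ) (lam : ℚ) (n : ℕ) :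
    Real.exp (lam * ∑ h ∈ Icc 1 H, (v h : ℝ) * (g (n + h) * e (n + h))) =
      ∑ A ∈ (Icc 1 H).powerset, wt g H v lam A n * ∏ h ∈ A, e (n + h) := by
  rw [mul_sum, Real.exp_sum]
  have h1 : ∀ h ∈ Icc 1 H, Real.exp (lam * ((v h : ℝ) * (g (n + h) * e (n + h)))) =
      e (n + h) * Real.sinh (lam * (v h * g (n + h))) + Real.cosh (lam * (v h * g (n + h))) := by
    intro h _
    rw [← exp_sign (he (n + h))]
    congr 1
    ring
  rw [prod_congr rfl h1, prod_add]
  apply sum_congr rfl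
  intro A _
  rw [prod_mul_distrib]
  unfold wt
  ring

lemma harm (N : ℕ) : ∑ n ∈ Icc 1 N, (1 : ℝ) / n ≤ 1 + Real.log N := by
  have h1 := harmonic_le_one_add_log N
  rw [harmonic_eq_sum_Icc] at h1
  push_cast at h1
  simpa [one_div] using h1

theorem ae_MG {Ω : Type} [MeasurableSpace Ω] {P : Measure Ω} [IsProbabilityMeasure P]
    {e : ℕ → Ω → ℝ} (hm : ∀ p, Measurable (e p)) (he : ∀ p ω, e p ω = 1 ∨ e p ω = -1) (hind : iIndepFun e P)
    (hS : Summable fun b : ℕ => Real.exp (- SS P e (2 ^ (2 ^ b)))) {g : ℕ → ℝ} (hg : ∀ n, |g n| ≤ 1) :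
    ∀ᵐ ω ∂P, MG (fun n => g n * cm (fun p => e p ω) n) := by
  have hind' : iIndepFun (fun i : Unit × ℕ => e i.2) P :=
    hind.precomp (g := fun i : Unit × ℕ => i.2) (fun a b h => Prod.ext rfl h)
  have hE : ∀ (ω : Ω) (n : ℕ), cm (fun p => e p ω) n = 1 ∨ cm (fun p => e p ω) n = -1 := by
    intro ω n
    have := cm_abs (fun p => he p ω) n
    rcases abs_eq (zero_le_one' ℝ) |>.1 this with h | h
    · exact Or.inl h
    · exact Or.inr h
  have hcor : ∀ᵐ ω ∂P, ∀ (H : ℕ) (v : ℕ →₀ ℚ) (lam : ℚ) (A : Finset ℕ), (∀ h, |v h| ≤ 1) → A ⊆ Icc 1 H → A.Nonempty →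
      Tendsto (fun X : ℕ => (∑ n ∈ Icc 1 X, wt g H v lam A n * (∏ h ∈ A, cm (fun p => e p ω) (n + h)) / n) / Real.log X)
        atTop (𝓝 0) := by
    rw [ae_all_iff]
    intro H
    rw [ae_all_iff]
    intro v
    rw [ae_all_iff]
    intro lam
    rw [ae_all_iff]
    intro A
    by_cases hv : ∀ h, |v h| ≤ 1
    swap
    · exact Eventually.of_forall fun ω h => absurd h hv
    by_cases hA1 : A ⊆ Icc 1 H
    swap
    · exact Eventually.of_forall fun ω _ h => absurd h hA1
    by_cases hA : A.Nonempty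
    swap
    · exact Eventually.of_forall fun ω _ _ h => absurd h hA
    obtain ⟨h0, hh0⟩ := hA
    have hc0 : (0 : ℝ) < Real.cosh lam ^ H := pow_pos (Real.cosh_pos _) _
    have h1 := as_main (P := P) (ι := Unit) (ε := fun _ p => e p)
      (fun _ p => hm p) (fun _ p ω => he p ω) hind' (A.image fun h => ((), h)) () h0
      (mem_image_of_mem _ hh0) hS (fun n => wt g H v lam A n / Real.cosh lam ^ H) (fun n => by
        rw [abs_div, abs_of_pos hc0, div_le_one hc0]
        exact wt_bd hg H hv lam hA1 n)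
    filter_upwards [h1] with ω hω _ _ _
    have h2 := hω.const_mul (Real.cosh lam ^ H)
    rw [mul_zero] at h2
    refine h2.congr fun X => ?_
    rw [← mul_div_assoc, mul_sum]
    congr 1
    apply sum_congr rfl
    intro n _
    unfold WW
    rw [prod_image (fun a _ b _ h => (Prod.mk.inj h).2)]
    field_simp
  filter_upwards [hcor] with ω hω
  intro H v lam hv η hη
  obtain ⟨S, hSd⟩ : ∃ S : Finset (Finset ℕ), S = (Icc 1 H).powerset.erase ∅ := ⟨_, rfl⟩
  have hS1 : ∀ᶠ N : ℕ in atTop, ∀ A ∈ S, ∑ n ∈ Icc 1 N, wt g H v lam A n * (∏ h ∈ A, cm (fun p => e p ω) (n + h)) / n ≤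
      (η / (2 * (S.card + 1))) * Real.log N := by
    rw [eventually_all_finset]
    intro A hA
    rw [hSd, mem_erase, mem_powerset] at hA
    have h1 := hω H v lam A hv hA.2 (nonempty_iff_ne_empty.2 hA.1)
    have h2 := h1.eventually (ge_mem_nhds (show (0 : ℝ) < η / (2 * (S.card + 1)) by positivity))
    filter_upwards [h2, eventually_ge_atTop 3] with N hN hN3
    have hlog : 0 < Real.log N := Real.log_pos (by exact_mod_cast (by omega : 1 < N))
    exact (div_le_iff₀ hlog).1 hN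
  have hcB : ∀ n, wt g H v lam ∅ n ≤ Real.exp ((lam : ℝ) ^ 2 * H / 2) := by
    intro n
    unfold wt
    rw [prod_empty, one_mul, sdiff_empty]
    calc ∏ h ∈ Icc 1 H, Real.cosh (lam * (v h * g (n + h))) ≤ ∏ _h ∈ Icc 1 H, Real.exp ((lam : ℝ) ^ 2 / 2) := by
          apply prod_le_prod (fun h _ => (Real.cosh_pos _).le)
          intro h _
          refine (Real.cosh_le_exp_half_sq _).trans (Real.exp_le_exp.2 ?_)
          have h2 : |((v h : ℚ) : ℝ)| ≤ 1 := by exact_mod_cast hv h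
          have h3 := hg (n + h)
          have h4 : |((v h : ℚ) : ℝ) * g (n + h)| ≤ 1 := by
            rw [abs_mul]
            exact mul_le_one₀ h2 (abs_nonneg _) h3
          have h5 : (((v h : ℚ) : ℝ) * g (n + h)) ^ 2 ≤ 1 := by
            rw [← sq_abs]
            exact pow_le_one₀ (abs_nonneg _) h4
          have h6 : ((lam : ℝ) * (((v h : ℚ) : ℝ) * g (n + h))) ^ 2 ≤ (lam : ℝ) ^ 2 := by
            rw [mul_pow]
            nlinarith [sq_nonneg (lam : ℝ)]
          linarith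
      _ = Real.exp ((lam : ℝ) ^ 2 * H / 2) := by
          rw [prod_const, Nat.card_Icc, Nat.add_sub_cancel, ← Real.exp_nat_mul]
          congr 1
          ring
  have hlogt : ∀ᶠ N : ℕ in atTop, Real.exp ((lam : ℝ) ^ 2 * H / 2) ≤ η / 2 * Real.log N := by
    have h1 : Tendsto (fun N : ℕ => η / 2 * Real.log N) atTop atTop :=
      (Real.tendsto_log_atTop.comp tendsto_natCast_atTop_atTop).const_mul_atTop (by positivity)
    exact h1.eventually_ge_atTop _
  filter_upwards [hS1, hlogt, eventually_ge_atTop 3] with N hN1 hN2 hN3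
  have hlog : 0 ≤ Real.log N := Real.log_natCast_nonneg N
  have h1 : ∑ n ∈ Icc 1 N, Real.exp (lam * ∑ h ∈ Icc 1 H, (v h : ℝ) * (g (n + h) * cm (fun p => e p ω) (n + h))) / n =
      ∑ n ∈ Icc 1 N, wt g H v lam ∅ n / n +
        ∑ A ∈ S, ∑ n ∈ Icc 1 N, wt g H v lam A n * (∏ h ∈ A, cm (fun p => e p ω) (n + h)) / n := by
    rw [sum_comm, ← sum_add_distrib]
    apply sum_congr rfl
    intro n _
    rw [expand (hE ω), ← add_sum_erase _ _ (empty_mem_powerset (Icc 1 H)), ← hSd, prod_empty, mul_one, add_div,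
      sum_div]
  rw [h1]
  have h2 : ∑ n ∈ Icc 1 N, wt g H v lam ∅ n / n ≤ Real.exp ((lam : ℝ) ^ 2 * H / 2) * (1 + Real.log N) := by
    calc ∑ n ∈ Icc 1 N, wt g H v lam ∅ n / n ≤ ∑ n ∈ Icc 1 N, Real.exp ((lam : ℝ) ^ 2 * H / 2) * (1 / n) := by
          apply sum_le_sum
          intro n _
          rw [mul_one_div]
          exact div_le_div_of_nonneg_right (hcB n) (Nat.cast_nonneg _)
      _ = Real.exp ((lam : ℝ) ^ 2 * H / 2) * ∑ n ∈ Icc 1 N, (1 : ℝ) / n := by rw [mul_sum]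
      _ ≤ _ := mul_le_mul_of_nonneg_left (harm N) (Real.exp_pos _).le
  have h3 : ∑ A ∈ S, ∑ n ∈ Icc 1 N, wt g H v lam A n * (∏ h ∈ A, cm (fun p => e p ω) (n + h)) / n ≤
      η / 2 * Real.log N := by
    calc ∑ A ∈ S, ∑ n ∈ Icc 1 N, wt g H v lam A n * (∏ h ∈ A, cm (fun p => e p ω) (n + h)) / n
        ≤ ∑ _A ∈ S, (η / (2 * (S.card + 1))) * Real.log N := sum_le_sum hN1
      _ = (S.card / (S.card + 1) : ℝ) * (η / 2 * Real.log N) := by
          rw [sum_const, nsmul_eq_mul]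
          field_simp
      _ ≤ 1 * (η / 2 * Real.log N) := by
          apply mul_le_mul_of_nonneg_right _ (by positivity)
          rw [div_le_one (by positivity)]
          linarith
      _ = _ := one_mul _
  calc _ ≤ Real.exp ((lam : ℝ) ^ 2 * H / 2) * (1 + Real.log N) + η / 2 * Real.log N := add_le_add h2 h3
    _ ≤ _ := by nlinarith

end Pool.Agent.N318.LS
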