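import Mathlib
import Pool.Agent.N318.LS.A

set_option autoImplicit false

/-! Consequences of the exponential moment bounds for suprema over families of small cardinality (helper318). -/

namespace Pool.Agent.N318.LS

open Finset Filter Topology

lemma pt {x D B lam : ℝ} (hlam : 0 ≤ lam) (hD : 0 ≤ D) (hB : |x| ≤ B) :
    |x| ≤ D + B * (Real.exp (lam * x - lam * D) + Real.exp (-lam * x - lam * D)) := by
  have hB0 : 0 ≤ B := (abs_nonneg x).trans hB
  have e1 := Real.exp_pos (lam * x - lam * D)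
  have e2 := Real.exp_pos (-lam * x - lam * D)
  rcases le_or_gt |x| D with h | h
  · have := mul_nonneg hB0 (add_pos e1 e2).le
    linarith
  · rcases le_total 0 x with h0 | h0
    · rw [abs_of_nonneg h0] at h hB ⊢
      have : 1 ≤ Real.exp (lam * x - lam * D) := Real.one_le_exp (by nlinarith)
      nlinarith
    · rw [abs_of_nonpos h0] at h hB ⊢
      have : 1 ≤ Real.exp (-lam * x - lam * D) := Real.one_le_exp (by nlinarith)
      nlinarith

lemma sum_abs_le {f : ℕ → ℝ} (hf : ∀ n, |f n| ≤ 1) (H : ℕ) {v : ℕ →₀ ℚ} (hv : ∀ h, |v h| ≤ 1) (n : ℕ) :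
    |∑ h ∈ Icc 1 H, (v h : ℝ) * f (n + h)| ≤ H := by
  calc |∑ h ∈ Icc 1 H, (v h : ℝ) * f (n + h)| ≤ ∑ h ∈ Icc 1 H, |(v h : ℝ) * f (n + h)| := abs_sum_le_sum_abs _ _
    _ ≤ ∑ _h ∈ Icc 1 H, (1 : ℝ) := by
        apply sum_le_sum
        intro h _
        rw [abs_mul]
        exact mul_le_one₀ (by exact_mod_cast hv h) (abs_nonneg _) (hf _)
    _ = H := by simp

theorem fam {f : ℕ → ℝ} (hf : ∀ n, |f n| ≤ 1) (hMG : MG f) {del : ℚ} (hdel : 0 < del) (H : ℕ) (V : Finset (ℕ →₀ ℚ))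
    (hV : ∀ v ∈ V, ∀ h, |v h| ≤ 1) :
    ∃ B : ℕ → ℝ, (∀ n, ∀ v ∈ V, |∑ h ∈ Icc 1 H, (v h : ℝ) * f (n + h)| ≤ B n) ∧ (∀ n, 0 ≤ B n) ∧
      ∀ᶠ N : ℕ in atTop, ∑ n ∈ Icc 1 N, B n / n ≤
        (2 * del * H + 4 * H * V.card * Real.exp (-((del : ℝ) ^ 2 * H / 2))) * Real.log N := by
  have hd : (0 : ℝ) < del := by exact_mod_cast hdel
  set S : (ℕ →₀ ℚ) → ℕ → ℝ := fun v n => ∑ h ∈ Icc 1 H, (v h : ℝ) * f (n + h) with hS
  set D : ℝ := del * H with hD
  have hD0 : 0 ≤ D := by positivity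
  have hE : ∀ (c : ℝ) (v : ℕ →₀ ℚ) (n : ℕ), Real.exp (c * S v n - del * D) =
      Real.exp (-((del : ℝ) ^ 2 * H)) * Real.exp (c * S v n) := by
    intro c v n
    rw [← Real.exp_add]
    congr 1
    rw [hD]
    ring
  refine ⟨fun n => D + H * ∑ v ∈ V, (Real.exp (del * S v n - del * D) + Real.exp (-del * S v n - del * D)), ?_, ?_, ?_⟩
  · intro n v hv
    have h1 := pt hd.le hD0 (sum_abs_le hf H (hV v hv) n)
    refine h1.trans ?_
    have h2 : Real.exp (del * S v n - del * D) + Real.exp (-del * S v n - del * D) ≤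
        ∑ v ∈ V, (Real.exp (del * S v n - del * D) + Real.exp (-del * S v n - del * D)) :=
      single_le_sum (f := fun v => Real.exp (del * S v n - del * D) + Real.exp (-del * S v n - del * D))
        (fun i _ => by positivity) hv
    have h3 := mul_le_mul_of_nonneg_left h2 (Nat.cast_nonneg H : (0 : ℝ) ≤ H)
    show D + H * (Real.exp (del * S v n - del * D) + Real.exp (-del * S v n - del * D)) ≤ _
    linarith
  · intro n
    have : 0 ≤ ∑ v ∈ V, (Real.exp (del * S v n - del * D) + Real.exp (-del * S v n - del * D)) :=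
      sum_nonneg fun i _ => by positivity
    positivity
  · have hη : 0 < Real.exp ((del : ℝ) ^ 2 * H / 2) := Real.exp_pos _
    have h1 : ∀ᶠ N : ℕ in atTop, ∀ v ∈ V,
        ∑ n ∈ Icc 1 N, Real.exp (del * S v n) / n ≤ (2 * Real.exp ((del : ℝ) ^ 2 * H / 2)) * Real.log N := by
      rw [eventually_all_finset]
      intro v hv
      filter_upwards [hMG H v del (hV v hv) _ hη] with N hN
      refine hN.trans (le_of_eq ?_)
      ring
    have h2 : ∀ᶠ N : ℕ in atTop, ∀ v ∈ V,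
        ∑ n ∈ Icc 1 N, Real.exp (-del * S v n) / n ≤ (2 * Real.exp ((del : ℝ) ^ 2 * H / 2)) * Real.log N := by
      rw [eventually_all_finset]
      intro v hv
      filter_upwards [hMG H v (-del) (hV v hv) _ hη] with N hN
      push_cast at hN
      refine hN.trans (le_of_eq ?_)
      ring
    filter_upwards [h1, h2, eventually_ge_atTop 3] with N hN1 hN2 hN3
    have hlog : 1 ≤ Real.log N := by
      have h3 : (3 : ℝ) ≤ N := by exact_mod_cast hN3
      have h4 := Real.exp_one_lt_d9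
      rw [Real.le_log_iff_exp_le (by linarith)]
      linarith
    have h5 : ∑ n ∈ Icc 1 N, (D + H * ∑ v ∈ V, (Real.exp (del * S v n - del * D) +
        Real.exp (-del * S v n - del * D))) / n = D * ∑ n ∈ Icc 1 N, (1 : ℝ) / n +
        H * Real.exp (-((del : ℝ) ^ 2 * H)) * ∑ v ∈ V, (∑ n ∈ Icc 1 N, Real.exp (del * S v n) / n +
          ∑ n ∈ Icc 1 N, Real.exp (-del * S v n) / n) := by
      rw [mul_sum, mul_sum]
      have h6 : ∀ v ∈ V, (H : ℝ) * Real.exp (-((del : ℝ) ^ 2 * H)) * (∑ n ∈ Icc 1 N, Real.exp (del * S v n) / n +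
          ∑ n ∈ Icc 1 N, Real.exp (-del * S v n) / n) = ∑ n ∈ Icc 1 N, H * (Real.exp (del * S v n - del * D) +
            Real.exp (-del * S v n - del * D)) / n := by
        intro v _
        rw [← sum_add_distrib, mul_sum]
        apply sum_congr rfl
        intro n _
        rw [hE del v n, hE (-del) v n]
        ring
      rw [sum_congr rfl h6, sum_comm, ← sum_add_distrib]
      apply sum_congr rfl
      intro n _
      rw [add_div, mul_sum, sum_div]
      congr 1
      ring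
    rw [h5]
    have h7 : ∑ v ∈ V, (∑ n ∈ Icc 1 N, Real.exp (del * S v n) / n +
          ∑ n ∈ Icc 1 N, Real.exp (-del * S v n) / n) ≤
        V.card * (4 * Real.exp ((del : ℝ) ^ 2 * H / 2) * Real.log N) := by
      rw [← nsmul_eq_mul]
      apply sum_le_card_nsmul
      intro v hv
      have := hN1 v hv
      have := hN2 v hv
      linarith
    have h8 : D * ∑ n ∈ Icc 1 N, (1 : ℝ) / n ≤ D * (2 * Real.log N) := by
      apply mul_le_mul_of_nonneg_left _ hD0
      have := harm N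
      linarith
    have h9 : (H : ℝ) * Real.exp (-((del : ℝ) ^ 2 * H)) * ∑ v ∈ V, (∑ n ∈ Icc 1 N, Real.exp (del * S v n) / n +
          ∑ n ∈ Icc 1 N, Real.exp (-del * S v n) / n) ≤
        H * Real.exp (-((del : ℝ) ^ 2 * H)) * (V.card * (4 * Real.exp ((del : ℝ) ^ 2 * H / 2) * Real.log N)) :=
      mul_le_mul_of_nonneg_left h7 (by positivity)
    have h10 : Real.exp (-((del : ℝ) ^ 2 * H)) * Real.exp ((del : ℝ) ^ 2 * H / 2) =
        Real.exp (-((del : ℝ) ^ 2 * H / 2)) := by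
      rw [← Real.exp_add]
      congr 1
      ring
    calc _ ≤ D * (2 * Real.log N) + H * Real.exp (-((del : ℝ) ^ 2 * H)) *
        (V.card * (4 * Real.exp ((del : ℝ) ^ 2 * H / 2) * Real.log N)) := add_le_add h8 h9
      _ = (2 * D + 4 * H * V.card * (Real.exp (-((del : ℝ) ^ 2 * H)) * Real.exp ((del : ℝ) ^ 2 * H / 2))) *
          Real.log N := by ring
      _ = _ := by rw [h10, hD]; ring

lemma rat_near {x e : ℝ} (hx : |x| ≤ 1) (he : 0 < e) : ∃ q : ℚ, |q| ≤ 1 ∧ |(q : ℝ) - x| ≤ e := by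
  rw [abs_le] at hx
  have hm : 0 < min e 1 := lt_min he one_pos
  rcases le_total 0 x with h | h
  · obtain ⟨q, h1, h2⟩ := exists_rat_btwn (show x - min e 1 < x by linarith)
    refine ⟨q, ?_, ?_⟩
    · have h3 : |(q : ℝ)| ≤ 1 := by
        rw [abs_le]
        constructor <;> linarith [min_le_right e 1]
      exact_mod_cast h3
    · rw [abs_le]
      constructor <;> linarith [min_le_left e 1]
  · obtain ⟨q, h1, h2⟩ := exists_rat_btwn (show x < x + min e 1 by linarith)
    refine ⟨q, ?_, ?_⟩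
    · have h3 : |(q : ℝ)| ≤ 1 := by
        rw [abs_le]
        constructor <;> linarith [min_le_right e 1]
      exact_mod_cast h3
    · rw [abs_le]
      constructor <;> linarith [min_le_left e 1]

lemma seq_near {x : ℕ → ℝ} (hx : ∀ h, |x h| ≤ 1) {e : ℝ} (he : 0 < e) (H : ℕ) :
    ∃ v : ℕ →₀ ℚ, (∀ h, |v h| ≤ 1) ∧ ∀ h ∈ Icc 1 H, |(v h : ℝ) - x h| ≤ e := by
  classical
  choose q hq1 hq2 using fun h => rat_near (hx h) he
  refine ⟨Finsupp.onFinset (Icc 1 H) (fun h => if h ∈ Icc 1 H then q h else 0) (fun h hh => ?_), fun h => ?_,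
    fun h hh => ?_⟩
  · by_contra h1
    simp [h1] at hh
  · simp only [Finsupp.onFinset_apply]
    split_ifs
    · exact hq1 h
    · simp
  · simp only [Finsupp.onFinset_apply, if_pos hh]
    exact hq2 h

theorem cplx {f : ℕ → ℂ} (hf : ∀ n, ‖f n‖ ≤ 1) (h1 : MG (fun n => (f n).re)) (h2 : MG (fun n => (f n).im))
    {del : ℚ} (hdel : 0 < del) (H : ℕ) (W : Finset (ℕ → ℂ)) (hW : ∀ w ∈ W, ∀ h, ‖w h‖ ≤ 1) :
    ∃ B : ℕ → ℝ, (∀ n, ∀ a : ℕ → ℂ, (∃ w ∈ W, ∑ h ∈ Icc 1 H, ‖a h - w h‖ ≤ del * H) →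
        ‖∑ h ∈ Icc 1 H, a h * f (n + h)‖ ≤ B n) ∧ (∀ n, 0 ≤ B n) ∧
      ∀ᶠ N : ℕ in atTop, ∑ n ∈ Icc 1 N, B n / n ≤
        (14 * del * H + 32 * H * W.card * Real.exp (-((del : ℝ) ^ 2 * H / 2))) * Real.log N := by
  classical
  have hd : (0 : ℝ) < del := by exact_mod_cast hdel
  have hre : ∀ w : ℕ → ℂ, ∃ v : ℕ →₀ ℚ, (∀ h, |v h| ≤ 1) ∧ (w ∈ W → ∀ h ∈ Icc 1 H, |(v h : ℝ) - (w h).re| ≤ del) := by
    intro w
    by_cases hw : w ∈ W
    · obtain ⟨v, hv1, hv2⟩ := seq_near (x := fun h => (w h).re)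
        (fun h => (Complex.abs_re_le_norm _).trans (hW w hw h)) hd H
      exact ⟨v, hv1, fun _ => hv2⟩
    · exact ⟨0, by simp, fun h => absurd h hw⟩
  have him : ∀ w : ℕ → ℂ, ∃ v : ℕ →₀ ℚ, (∀ h, |v h| ≤ 1) ∧ (w ∈ W → ∀ h ∈ Icc 1 H, |(v h : ℝ) - (w h).im| ≤ del) := by
    intro w
    by_cases hw : w ∈ W
    · obtain ⟨v, hv1, hv2⟩ := seq_near (x := fun h => (w h).im)
        (fun h => (Complex.abs_im_le_norm _).trans (hW w hw h)) hd H
      exact ⟨v, hv1, fun _ => hv2⟩
    · exact ⟨0, by simp, fun h => absurd h hw⟩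
  choose r hr1 hr2 using hre
  choose i hi1 hi2 using him
  set V : Finset (ℕ →₀ ℚ) := W.image r ∪ W.image i with hVd
  have hV : ∀ v ∈ V, ∀ h, |v h| ≤ 1 := by
    intro v hv
    rw [hVd, mem_union, mem_image, mem_image] at hv
    rcases hv with ⟨w, _, rfl⟩ | ⟨w, _, rfl⟩
    · exact hr1 w
    · exact hi1 w
  have hVc : (V.card : ℝ) ≤ 2 * W.card := by
    have h3 : V.card ≤ W.card + W.card :=
      (card_union_le _ _).trans (Nat.add_le_add card_image_le card_image_le)
    have h4 : (V.card : ℝ) ≤ W.card + W.card := by exact_mod_cast h3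
    linarith
  obtain ⟨B1, hB1, hB10, hB1s⟩ := fam (fun n => (Complex.abs_re_le_norm _).trans (hf n)) h1 hdel H V hV
  obtain ⟨B2, hB2, hB20, hB2s⟩ := fam (fun n => (Complex.abs_im_le_norm _).trans (hf n)) h2 hdel H V hV
  refine ⟨fun n => 3 * del * H + 2 * B1 n + 2 * B2 n, ?_, ?_, ?_⟩
  · intro n a ⟨w, hw, haw⟩
    set u : ℕ → ℂ := fun h => ((r w h : ℝ) : ℂ) + ((i w h : ℝ) : ℂ) * Complex.I with hu
    have e1 : ∑ h ∈ Icc 1 H, a h * f (n + h) = ∑ h ∈ Icc 1 H, (a h - w h) * f (n + h) +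
        ∑ h ∈ Icc 1 H, (w h - u h) * f (n + h) + ∑ h ∈ Icc 1 H, u h * f (n + h) := by
      rw [← sum_add_distrib, ← sum_add_distrib]
      apply sum_congr rfl
      intro h _
      ring
    have e2 : ‖∑ h ∈ Icc 1 H, (a h - w h) * f (n + h)‖ ≤ del * H := by
      refine (norm_sum_le _ _).trans (le_trans (sum_le_sum fun h _ => ?_) haw)
      rw [norm_mul]
      exact mul_le_of_le_one_right (norm_nonneg _) (hf _)
    have e3 : ‖∑ h ∈ Icc 1 H, (w h - u h) * f (n + h)‖ ≤ 2 * del * H := by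
      refine (norm_sum_le _ _).trans ?_
      have h5 : ∀ h ∈ Icc 1 H, ‖(w h - u h) * f (n + h)‖ ≤ 2 * del := by
        intro h hh
        rw [norm_mul]
        refine (mul_le_of_le_one_right (norm_nonneg _) (hf _)).trans ?_
        refine (Complex.norm_le_abs_re_add_abs_im _).trans ?_
        have h6 := hr2 w hw h hh
        have h7 := hi2 w hw h hh
        rw [abs_sub_comm] at h6 h7
        have h8 : (w h - u h).re = (w h).re - r w h := by simp [hu]
        have h9 : (w h - u h).im = (w h).im - i w h := by simp [hu]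
        rw [h8, h9]
        linarith
      refine (sum_le_card_nsmul _ _ _ h5).trans (le_of_eq ?_)
      rw [Nat.card_Icc, Nat.add_sub_cancel, nsmul_eq_mul]
      ring
    have e4 : ∑ h ∈ Icc 1 H, u h * f (n + h) =
        (((∑ h ∈ Icc 1 H, (r w h : ℝ) * (f (n + h)).re) - ∑ h ∈ Icc 1 H, (i w h : ℝ) * (f (n + h)).im : ℝ) : ℂ) +
        (((∑ h ∈ Icc 1 H, (r w h : ℝ) * (f (n + h)).im) + ∑ h ∈ Icc 1 H, (i w h : ℝ) * (f (n + h)).re : ℝ) : ℂ) *
          Complex.I := by
      rw [← sum_sub_distrib, ← sum_add_distrib]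
      push_cast
      rw [sum_mul, ← sum_add_distrib]
      apply sum_congr rfl
      intro h _
      conv_lhs => rw [← Complex.re_add_im (f (n + h))]
      rw [hu]
      linear_combination ((i w h : ℝ) : ℂ) * ((f (n + h)).im : ℂ) * Complex.I_mul_I
    have hrV : r w ∈ V := mem_union_left _ (mem_image_of_mem _ hw)
    have hiV : i w ∈ V := mem_union_right _ (mem_image_of_mem _ hw)
    have e5 : ‖∑ h ∈ Icc 1 H, u h * f (n + h)‖ ≤ 2 * B1 n + 2 * B2 n := by
      rw [e4]
      refine (norm_add_le _ _).trans ?_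
      rw [norm_mul, Complex.norm_I, mul_one, Complex.norm_real, Complex.norm_real, Real.norm_eq_abs, Real.norm_eq_abs]
      have g1 := hB1 n _ hrV
      have g2 := hB1 n _ hiV
      have g3 := hB2 n _ hrV
      have g4 := hB2 n _ hiV
      refine (add_le_add (abs_sub _ _) (abs_add_le _ _)).trans ?_
      linarith
    rw [e1]
    refine (norm_add₃_le).trans ?_
    show _ ≤ 3 * del * H + 2 * B1 n + 2 * B2 n
    linarith
  · intro n
    have := hB10 n
    have := hB20 n
    positivity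
  · filter_upwards [hB1s, hB2s, eventually_ge_atTop 3] with N g1 g2 hN3
    have hlog : 1 ≤ Real.log N := by
      have h3 : (3 : ℝ) ≤ N := by exact_mod_cast hN3
      have h4 := Real.exp_one_lt_d9
      rw [Real.le_log_iff_exp_le (by linarith)]
      linarith
    have e1 : ∑ n ∈ Icc 1 N, (3 * del * H + 2 * B1 n + 2 * B2 n) / n = 3 * del * H * ∑ n ∈ Icc 1 N, (1 : ℝ) / n +
        2 * ∑ n ∈ Icc 1 N, B1 n / n + 2 * ∑ n ∈ Icc 1 N, B2 n / n := by
      rw [mul_sum, mul_sum, mul_sum, ← sum_add_distrib, ← sum_add_distrib]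
      apply sum_congr rfl
      intro n _
      ring
    rw [e1]
    have e2 : 3 * del * H * ∑ n ∈ Icc 1 N, (1 : ℝ) / n ≤ 3 * del * H * (2 * Real.log N) := by
      apply mul_le_mul_of_nonneg_left _ (by positivity)
      have := harm N
      linarith
    set E := Real.exp (-((del : ℝ) ^ 2 * H / 2)) with hE
    have hE0 : 0 < E := Real.exp_pos _
    have e3 : (2 * del * H + 4 * H * V.card * E) * Real.log N ≤ (2 * del * H + 4 * H * (2 * W.card) * E) * Real.log N := by
      apply mul_le_mul_of_nonneg_right _ (by linarith)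
      have : 4 * (H : ℝ) * V.card * E ≤ 4 * H * (2 * W.card) * E := by
        apply mul_le_mul_of_nonneg_right _ hE0.le
        exact mul_le_mul_of_nonneg_left hVc (by positivity)
      linarith
    nlinarith

end Pool.Agent.N318.LS
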