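import Mathlib
import Pool.Agent.N318.LS.B

set_option autoImplicit false

/-! Classes of sequences with subexponential covering numbers; from short sums to long sums (helper318). -/

namespace Pool.Agent.N318.LS

open Finset Filter Topology

/-- For each `δ > 0` and all large `H` the sequences in `𝒜` are covered by at most `exp(δ H)` sequences bounded by `1`, up to
the error `δ H` on `[1, H]`. -/
def SubExp (𝒜 : Set (ℕ → ℂ)) : Prop := ∀ δ : ℝ, 0 < δ → ∃ H₀ : ℕ, ∀ H : ℕ, H₀ ≤ H → ∃ W : Finset (ℕ → ℂ),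
  (W.card : ℝ) ≤ Real.exp (δ * H) ∧ (∀ w ∈ W, ∀ h, ‖w h‖ ≤ 1) ∧
    ∀ a ∈ 𝒜, ∃ w ∈ W, ∑ h ∈ Icc 1 H, ‖a h - w h‖ ≤ δ * H

lemma exp_small (δ : ℝ) (hδ : 0 < δ) : ∃ H₀ : ℕ, ∀ H : ℕ, H₀ ≤ H → Real.exp (-(δ * H)) ≤ δ := by
  have h1 : Tendsto (fun H : ℕ => Real.exp (-(δ * H))) atTop (𝓝 0) := by
    have h2 : Tendsto (fun H : ℕ => δ * (H : ℝ)) atTop atTop :=
      tendsto_natCast_atTop_atTop.const_mul_atTop hδ
    exact Real.tendsto_exp_atBot.comp (tendsto_neg_atTop_atBot.comp h2)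
  have h2 := h1.eventually (ge_mem_nhds hδ)
  rw [eventually_atTop] at h2
  exact h2

/-- short sums -/
theorem short {f : ℕ → ℂ} (hf : ∀ n, ‖f n‖ ≤ 1) (h1 : MG (fun n => (f n).re)) (h2 : MG (fun n => (f n).im))
    {𝒜 : Set (ℕ → ℂ)} (h𝒜 : SubExp 𝒜) {ε : ℝ} (hε : 0 < ε) :
    ∃ H₀ : ℕ, ∀ H : ℕ, H₀ ≤ H → ∃ B : ℕ → ℝ, (∀ n, ∀ a ∈ 𝒜, ‖∑ h ∈ Icc 1 H, a h * f (n + h)‖ ≤ B n) ∧ (∀ n, 0 ≤ B n) ∧
      ∀ᶠ N : ℕ in atTop, ∑ n ∈ Icc 1 N, B n / n ≤ ε * H * Real.log N := by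
  obtain ⟨del, hd0, hd1⟩ := exists_rat_btwn (show (0 : ℝ) < min (ε / 50) 1 by positivity)
  have hdel : 0 < del := by exact_mod_cast hd0
  have hde : (del : ℝ) < ε / 50 := hd1.trans_le (min_le_left _ _)
  have hd1' : (del : ℝ) < 1 := hd1.trans_le (min_le_right _ _)
  have hκ : (0 : ℝ) < (del : ℝ) ^ 2 / 4 := by positivity
  obtain ⟨H1, hH1⟩ := h𝒜 ((del : ℝ) ^ 2 / 4) hκ
  obtain ⟨H2, hH2⟩ := exp_small ((del : ℝ) ^ 2 / 4) hκ
  refine ⟨max H1 H2, fun H hH => ?_⟩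
  obtain ⟨W, hWc, hW, hcov⟩ := hH1 H (le_trans (le_max_left _ _) hH)
  have hex := hH2 H (le_trans (le_max_right _ _) hH)
  obtain ⟨B, hB, hB0, hBs⟩ := cplx hf h1 h2 hdel H W hW
  refine ⟨B, fun n a ha => hB n a ?_, hB0, ?_⟩
  · obtain ⟨w, hw, hwa⟩ := hcov a ha
    refine ⟨w, hw, hwa.trans ?_⟩
    apply mul_le_mul_of_nonneg_right _ (Nat.cast_nonneg _)
    nlinarith
  · filter_upwards [hBs] with N hN
    refine hN.trans ?_
    apply mul_le_mul_of_nonneg_right _ (Real.log_natCast_nonneg N)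
    have h3 : (W.card : ℝ) * Real.exp (-((del : ℝ) ^ 2 * H / 2)) ≤ del := by
      calc (W.card : ℝ) * Real.exp (-((del : ℝ) ^ 2 * H / 2))
          ≤ Real.exp ((del : ℝ) ^ 2 / 4 * H) * Real.exp (-((del : ℝ) ^ 2 * H / 2)) :=
            mul_le_mul_of_nonneg_right hWc (Real.exp_pos _).le
        _ = Real.exp (-((del : ℝ) ^ 2 / 4 * H)) := by
            rw [← Real.exp_add]
            congr 1
            ring
        _ ≤ (del : ℝ) ^ 2 / 4 := hex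
        _ ≤ del := by nlinarith
    have hH0 : (0 : ℝ) ≤ H := Nat.cast_nonneg _
    calc 14 * (del : ℝ) * H + 32 * H * W.card * Real.exp (-((del : ℝ) ^ 2 * H / 2))
        = 14 * del * H + 32 * H * (W.card * Real.exp (-((del : ℝ) ^ 2 * H / 2))) := by ring
      _ ≤ 14 * del * H + 32 * H * del := by
          have := mul_le_mul_of_nonneg_left h3 (show (0 : ℝ) ≤ 32 * H by positivity)
          linarith
      _ ≤ ε * H := by nlinarith

/-- one step of the shift -/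
lemma step {b : ℕ → ℂ} (hb : ∀ n, ‖b n‖ ≤ 1) (N : ℕ) : ‖∑ n ∈ Icc 1 N, (b n - b (n + 1)) / (n : ℂ)‖ ≤ 2 := by
  rcases Nat.eq_zero_or_pos N with rfl | hN
  · simp
  have key : ∀ N : ℕ, 1 ≤ N →
      ‖∑ n ∈ Icc 1 N, (b n - b (n + 1)) / (n : ℂ) + b (N + 1) / N‖ ≤ 2 - 1 / (N : ℝ) := by
    intro N hN
    induction N, hN using Nat.le_induction with
    | base =>
      have h1 : ∑ n ∈ Icc 1 1, (b n - b (n + 1)) / (n : ℂ) + b (1 + 1) / ((1 : ℕ) : ℂ) = b 1 := by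
        rw [Icc_self, sum_singleton]
        push_cast
        ring
      rw [h1]
      refine (hb 1).trans ?_
      norm_num
    | succ N hN ih =>
      have hN0 : (N : ℂ) ≠ 0 := by
        exact_mod_cast (by omega : N ≠ 0)
      have hN1 : ((N : ℂ) + 1) ≠ 0 := by
        exact_mod_cast (by omega : N + 1 ≠ 0)
      have h1 : ∑ n ∈ Icc 1 (N + 1), (b n - b (n + 1)) / (n : ℂ) + b (N + 1 + 1) / ((N + 1 : ℕ) : ℂ) =
          (∑ n ∈ Icc 1 N, (b n - b (n + 1)) / (n : ℂ) + b (N + 1) / N) -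
            b (N + 1) * ((1 / (N : ℝ) - 1 / ((N : ℝ) + 1) : ℝ) : ℂ) := by
        rw [sum_Icc_succ_top (by omega)]
        push_cast
        field_simp
        ring
      rw [h1]
      have hNr : (1 : ℝ) ≤ N := by exact_mod_cast hN
      have h2 : (0 : ℝ) ≤ 1 / (N : ℝ) - 1 / ((N : ℝ) + 1) := by
        rw [sub_nonneg]
        apply one_div_le_one_div_of_le <;> linarith
      have h3 : ‖b (N + 1) * ((1 / (N : ℝ) - 1 / ((N : ℝ) + 1) : ℝ) : ℂ)‖ ≤ 1 / (N : ℝ) - 1 / ((N : ℝ) + 1) := by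
        rw [norm_mul, Complex.norm_real, Real.norm_eq_abs, abs_of_nonneg h2]
        exact mul_le_of_le_one_left h2 (hb _)
      refine (norm_sub_le _ _).trans ?_
      rw [show ((N + 1 : ℕ) : ℝ) = N + 1 by push_cast; ring]
      linarith
  have h1 := key N hN
  have hNr : (1 : ℝ) ≤ N := by exact_mod_cast hN
  have h2 : ‖b (N + 1) / (N : ℂ)‖ ≤ 1 / (N : ℝ) := by
    rw [norm_div, Complex.norm_natCast]
    exact div_le_div_of_nonneg_right (hb _) (by positivity)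
  have h3 : ∑ n ∈ Icc 1 N, (b n - b (n + 1)) / (n : ℂ) =
      (∑ n ∈ Icc 1 N, (b n - b (n + 1)) / (n : ℂ) + b (N + 1) / N) - b (N + 1) / N := by ring
  rw [h3]
  refine (norm_sub_le _ _).trans ?_
  linarith

lemma steps {b : ℕ → ℂ} (hb : ∀ n, ‖b n‖ ≤ 1) (N h : ℕ) :
    ‖∑ n ∈ Icc 1 N, (b n - b (n + h)) / (n : ℂ)‖ ≤ 2 * h := by
  induction h with
  | zero => simp
  | succ h ih =>
    have h1 : ∑ n ∈ Icc 1 N, (b n - b (n + (h + 1))) / (n : ℂ) = ∑ n ∈ Icc 1 N, (b n - b (n + h)) / (n : ℂ) +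
        ∑ n ∈ Icc 1 N, (b (n + h) - b (n + 1 + h)) / (n : ℂ) := by
      rw [← sum_add_distrib]
      apply sum_congr rfl
      intro n _
      rw [show n + 1 + h = n + (h + 1) by ring]
      ring
    rw [h1]
    refine (norm_add_le _ _).trans ?_
    have h2 := step (b := fun n => b (n + h)) (fun n => hb _) N
    push_cast
    linarith

/-- from short sums to long sums -/
theorem long {b : ℕ → ℂ} (hb : ∀ n, ‖b n‖ ≤ 1) (H N : ℕ) :
    H * ‖∑ n ∈ Icc 1 N, b n / (n : ℂ)‖ ≤ ∑ n ∈ Icc 1 N, ‖∑ h ∈ Icc 1 H, b (n + h)‖ / n + 2 * H * H := by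
  have h1 : (H : ℂ) * ∑ n ∈ Icc 1 N, b n / (n : ℂ) = ∑ n ∈ Icc 1 N, (∑ h ∈ Icc 1 H, b (n + h)) / (n : ℂ) +
      ∑ h ∈ Icc 1 H, ∑ n ∈ Icc 1 N, (b n - b (n + h)) / (n : ℂ) := by
    rw [sum_comm, ← sum_add_distrib, mul_sum]
    apply sum_congr rfl
    intro n _
    rw [← sum_div, ← add_div, ← sum_add_distrib]
    have h2 : ∑ h ∈ Icc 1 H, (b (n + h) + (b n - b (n + h))) = H * b n := by
      rw [sum_congr rfl (fun h _ => show b (n + h) + (b n - b (n + h)) = b n by ring), sum_const, Nat.card_Icc,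
        Nat.add_sub_cancel, nsmul_eq_mul]
    rw [h2]
    ring
  have h3 : (H : ℝ) * ‖∑ n ∈ Icc 1 N, b n / (n : ℂ)‖ = ‖(H : ℂ) * ∑ n ∈ Icc 1 N, b n / (n : ℂ)‖ := by
    rw [norm_mul, Complex.norm_natCast]
  rw [h3, h1]
  refine (norm_add_le _ _).trans (add_le_add ?_ ?_)
  · refine (norm_sum_le _ _).trans (le_of_eq ?_)
    apply sum_congr rfl
    intro n _
    rw [norm_div, Complex.norm_natCast]
  · refine (norm_sum_le _ _).trans ?_
    have h4 : ∀ h ∈ Icc 1 H, ‖∑ n ∈ Icc 1 N, (b n - b (n + h)) / (n : ℂ)‖ ≤ 2 * H := by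
      intro h hh
      rw [mem_Icc] at hh
      refine (steps hb N h).trans ?_
      have : (h : ℝ) ≤ H := by exact_mod_cast hh.2
      linarith
    refine (sum_le_card_nsmul _ _ _ h4).trans (le_of_eq ?_)
    rw [Nat.card_Icc, Nat.add_sub_cancel, nsmul_eq_mul]
    ring

end Pool.Agent.N318.LS
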