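import Mathlib
import Pool.Agent.N318.LS.C

set_option autoImplicit false

/-! Classes of sequences with polynomial covering numbers (helper318). -/

namespace Pool.Agent.N318.LS

open Finset Filter Topology

/-- For each `H ≥ 1` the sequences in `𝒜` are covered by at most `C H ^ C` sequences bounded by `1`, up to
the error `C √H` in `ℓ¹[1, H]`. -/
def PolyCov (𝒜 : Set (ℕ → ℂ)) : Prop := ∃ C : ℕ, ∀ H : ℕ, 1 ≤ H → ∃ W : Finset (ℕ → ℂ),
  (W.card : ℝ) ≤ C * (H : ℝ) ^ C ∧ (∀ w ∈ W, ∀ h, ‖w h‖ ≤ 1) ∧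
    ∀ a ∈ 𝒜, ∃ w ∈ W, ∑ h ∈ Icc 1 H, ‖a h - w h‖ ≤ C * √H

theorem short_poly {𝒜 : Set (ℕ → ℂ)} (h𝒜 : PolyCov 𝒜) : ∃ C : ℝ, 0 < C ∧ ∀ f : ℕ → ℂ, (∀ n, ‖f n‖ ≤ 1) →
    MG (fun n => (f n).re) → MG (fun n => (f n).im) → ∀ H : ℕ, 2 ≤ H →
    ∃ B : ℕ → ℝ, (∀ n, ∀ a ∈ 𝒜, ‖∑ h ∈ Icc 1 H, a h * f (n + h)‖ ≤ B n) ∧ (∀ n, 0 ≤ B n) ∧
      ∀ᶠ N : ℕ in atTop, ∑ n ∈ Icc 1 N, B n / n ≤ C * √(H * Real.log H) * Real.log N := by
  obtain ⟨C, hC⟩ := h𝒜
  refine ⟨28 * (2 * C + 2) + 32 * C, by positivity, fun f hf h1 h2 H hH => ?_⟩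
  obtain ⟨W, hWc, hW, hcov⟩ := hC H (by omega)
  have hHr : (2 : ℝ) ≤ H := by exact_mod_cast hH
  have hH0 : (0 : ℝ) < H := by linarith
  have hl2 : (0.69 : ℝ) < Real.log 2 := by
    have := Real.log_two_gt_d9
    linarith
  have hlH : Real.log 2 ≤ Real.log H := Real.log_le_log (by norm_num) hHr
  have hlH0 : 0 < Real.log H := by linarith
  set A : ℝ := 2 * C + 2 with hA
  have hA0 : 0 < A := by positivity
  set s : ℝ := √(H * Real.log H) with hs
  have hs0 : 0 < s := Real.sqrt_pos.2 (by positivity)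
  have hss : s ^ 2 = H * Real.log H := Real.sq_sqrt (by positivity)
  have hs1 : 1 ≤ s := by
    rw [hs, Real.one_le_sqrt]
    nlinarith
  have hsH : √(H : ℝ) ≤ 2 * s := by
    rw [Real.sqrt_le_iff]
    refine ⟨by positivity, ?_⟩
    rw [mul_pow, hss]
    nlinarith
  set δ0 : ℝ := A * s / H with hδ0
  have hδ00 : 0 < δ0 := by positivity
  obtain ⟨del, hd0, hd1⟩ := exists_rat_btwn (show δ0 < 2 * δ0 by linarith)
  have hdel : (0 : ℚ) < del := by
    have : (0 : ℝ) < del := by linarith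
    exact_mod_cast this
  have hdr : (0 : ℝ) < del := by exact_mod_cast hdel
  have hdH : A * s ≤ del * H := by
    have h3 : δ0 * H = A * s := by
      rw [hδ0]
      field_simp
    nlinarith
  have hdH2 : (del : ℝ) * H ≤ 2 * (A * s) := by
    have h3 : δ0 * H = A * s := by
      rw [hδ0]
      field_simp
    nlinarith
  obtain ⟨B, hB, hB0, hBs⟩ := cplx hf h1 h2 hdel H W hW
  refine ⟨B, fun n a ha => hB n a ?_, hB0, ?_⟩
  · obtain ⟨w, hw, hwa⟩ := hcov a ha
    refine ⟨w, hw, hwa.trans (le_trans ?_ hdH)⟩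
    have hC0 : (0 : ℝ) ≤ C := Nat.cast_nonneg _
    nlinarith
  · filter_upwards [hBs] with N hN
    refine hN.trans ?_
    apply mul_le_mul_of_nonneg_right _ (Real.log_natCast_nonneg N)
    have h3 : (H : ℝ) * W.card * Real.exp (-((del : ℝ) ^ 2 * H / 2)) ≤ C := by
      have h4 : Real.exp (-((del : ℝ) ^ 2 * H / 2)) ≤ Real.exp (-((C + 1) * Real.log H)) := by
        apply Real.exp_le_exp.2
        have h5 : (A * s) ^ 2 ≤ (del * H) ^ 2 := pow_le_pow_left₀ (by positivity) hdH 2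
        have h6 : A ^ 2 * Real.log H ≤ (del : ℝ) ^ 2 * H := by
          have h7 : H * (A ^ 2 * Real.log H) ≤ H * ((del : ℝ) ^ 2 * H) := by
            calc H * (A ^ 2 * Real.log H) = A ^ 2 * s ^ 2 := by rw [hss]; ring
              _ = (A * s) ^ 2 := by ring
              _ ≤ (del * H) ^ 2 := h5
              _ = _ := by ring
          exact le_of_mul_le_mul_left h7 hH0
        have hC0 : (0 : ℝ) ≤ C := Nat.cast_nonneg _
        have h8 : 2 * ((C : ℝ) + 1) ≤ A ^ 2 := by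
          rw [hA]
          nlinarith
        nlinarith
      have h9 : Real.exp (-((C + 1) * Real.log H)) = ((H : ℝ) ^ (C + 1))⁻¹ := by
        rw [Real.exp_neg]
        congr 1
        rw [show ((C : ℝ) + 1) * Real.log H = ((C + 1 : ℕ) : ℝ) * Real.log H by push_cast; ring,
          ← Real.log_pow, Real.exp_log (by positivity)]
      rw [h9] at h4
      calc (H : ℝ) * W.card * Real.exp (-((del : ℝ) ^ 2 * H / 2))
          ≤ H * (C * (H : ℝ) ^ C) * ((H : ℝ) ^ (C + 1))⁻¹ := by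
            apply mul_le_mul _ h4 (Real.exp_pos _).le (by positivity)
            exact mul_le_mul_of_nonneg_left hWc hH0.le
        _ = C := by
            rw [pow_succ]
            field_simp
    calc 14 * (del : ℝ) * H + 32 * H * W.card * Real.exp (-((del : ℝ) ^ 2 * H / 2))
        = 14 * (del * H) + 32 * (H * W.card * Real.exp (-((del : ℝ) ^ 2 * H / 2))) := by ring
      _ ≤ 14 * (2 * (A * s)) + 32 * (C * s) := by
          have hC0 : (0 : ℝ) ≤ C := Nat.cast_nonneg _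
          have h10 : (C : ℝ) ≤ C * s := by nlinarith
          linarith
      _ = (28 * A + 32 * C) * s := by ring

end Pool.Agent.N318.LS
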