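import Mathlib

set_option autoImplicit false

/-! Polynomial sequences of unitriangular matrices modulo integer polynomial sequences (helper318). -/

namespace Pool.Agent.N318.LS

open Finset Polynomial

/-- the binomial polynomial -/
noncomputable def bin (l : ℕ) : ℝ[X] := C ((l.factorial : ℝ)⁻¹) * descPochhammer ℝ l

lemma bin_eval (l h : ℕ) : (bin l).eval (h : ℝ) = (h.choose l : ℝ) := by
  unfold bin
  rw [eval_mul, eval_C, descPochhammer_eval_eq_descFactorial, Nat.descFactorial_eq_factorial_mul_choose]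
  have : ((l.factorial : ℕ) : ℝ) ≠ 0 := by exact_mod_cast Nat.factorial_ne_zero l
  push_cast
  field_simp

lemma bin_deg (l : ℕ) : (bin l).natDegree ≤ l :=
  (natDegree_C_mul_le _ _).trans (descPochhammer_natDegree ℝ l).le

lemma newton (P : ℝ[X]) {D : ℕ} (hP : P.natDegree ≤ D) :
    ∃ c : ℕ → ℝ, ∀ h : ℕ, P.eval (h : ℝ) = ∑ l ∈ range (D + 1), c l * (h.choose l) := by
  refine ⟨fun l => (fwdDiff (1 : ℝ))^[l] P.eval 0, fun h => ?_⟩
  have h1 := shift_eq_sum_fwdDiff_iter (1 : ℝ) P.eval h 0
  rw [zero_add, nsmul_one] at h1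
  rw [h1]
  have h2 : ∑ k ∈ range (h + 1), h.choose k • (fwdDiff (1 : ℝ))^[k] P.eval 0 =
      ∑ k ∈ range (max (h + 1) (D + 1)), h.choose k • (fwdDiff (1 : ℝ))^[k] P.eval 0 := by
    apply sum_subset (range_subset_range.2 (le_max_left _ _))
    intro k _ hk
    rw [mem_range, not_lt] at hk
    rw [Nat.choose_eq_zero_of_lt (by omega), zero_smul]
  have h3 : ∑ k ∈ range (D + 1), (fwdDiff (1 : ℝ))^[k] P.eval 0 * (h.choose k : ℝ) =
      ∑ k ∈ range (max (h + 1) (D + 1)), (fwdDiff (1 : ℝ))^[k] P.eval 0 * (h.choose k : ℝ) := by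
    apply sum_subset (range_subset_range.2 (le_max_right _ _))
    intro k _ hk
    rw [mem_range, not_lt] at hk
    rw [Polynomial.fwdDiff_iter_eq_zero_of_degree_lt (by omega)]
    simp
  rw [h2, h3]
  apply sum_congr rfl
  intro k _
  rw [nsmul_eq_mul, mul_comm]

/-- a polynomial sequence with coefficients in `[0, 1]` in the binomial basis -/
def Rd (D : ℕ) (q : ℕ → ℝ) : Prop := ∃ c : ℕ → ℝ, (∀ l, 0 ≤ c l ∧ c l ≤ 1) ∧
  ∀ h : ℕ, q h = ∑ l ∈ range (D + 1), c l * (h.choose l)

lemma Rd.mono {D E : ℕ} (h : D ≤ E) {q : ℕ → ℝ} (hq : Rd D q) : Rd E q := by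
  obtain ⟨c, hc, hq⟩ := hq
  refine ⟨fun l => if l ≤ D then c l else 0, fun l => ?_, fun n => ?_⟩
  · show 0 ≤ (if l ≤ D then c l else 0) ∧ (if l ≤ D then c l else 0) ≤ 1
    split_ifs
    · exact hc l
    · norm_num
  · rw [hq]
    have h1 : ∑ l ∈ range (D + 1), c l * (n.choose l : ℝ) =
        ∑ l ∈ range (D + 1), (if l ≤ D then c l else 0) * (n.choose l : ℝ) := by
      apply sum_congr rfl
      intro l hl
      rw [mem_range] at hl
      rw [if_pos (by omega)]
    rw [h1]
    apply sum_subset (range_subset_range.2 (by omega))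
    intro l _ hl
    rw [mem_range, not_lt] at hl
    rw [if_neg (by omega), zero_mul]

/-- integer valued -/
def IV (P : ℝ[X]) : Prop := ∃ z : ℕ → ℤ, ∀ h : ℕ, P.eval (h : ℝ) = z h

lemma red (P : ℝ[X]) {D : ℕ} (hP : P.natDegree ≤ D) :
    ∃ Z : ℝ[X], Z.natDegree ≤ D ∧ IV Z ∧ Rd D (fun h => (P + Z).eval (h : ℝ)) := by
  obtain ⟨c, hc⟩ := newton P hP
  refine ⟨∑ l ∈ range (D + 1), C (-(⌊c l⌋ : ℝ)) * bin l, ?_, ?_, ?_⟩
  · apply natDegree_sum_le_of_forall_le
    intro l hl
    rw [mem_range] at hl
    exact (natDegree_C_mul_le _ _).trans ((bin_deg l).trans (by omega))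
  · refine ⟨fun h => ∑ l ∈ range (D + 1), -⌊c l⌋ * (h.choose l : ℤ), fun h => ?_⟩
    rw [eval_finsetSum]
    push_cast
    apply sum_congr rfl
    intro l _
    rw [eval_mul, eval_C, bin_eval]
  · refine ⟨fun l => c l - ⌊c l⌋, fun l => ⟨?_, ?_⟩, fun h => ?_⟩
    · have := Int.floor_le (c l)
      linarith
    · have := Int.lt_floor_add_one (c l)
      linarith
    · show (P + ∑ l ∈ range (D + 1), C (-(⌊c l⌋ : ℝ)) * bin l).eval (h : ℝ) = _
      rw [eval_add, hc h, eval_finsetSum, ← sum_add_distrib]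
      apply sum_congr rfl
      intro l _
      rw [eval_mul, eval_C, bin_eval]
      ring

lemma IV.zero : IV 0 := ⟨fun _ => 0, fun h => by simp⟩

lemma col {m D : ℕ} (Q : Matrix (Fin m) (Fin m) ℝ[X]) (hQ1 : ∀ i, Q i i = 1) (hQ0 : ∀ i j, j < i → Q i j = 0)
    (hQd : ∀ i j, (Q i j).natDegree ≤ D) : ∀ (t N : ℕ) (b : Fin m → ℝ[X]), (∀ i, (b i).natDegree ≤ N) →
      ∃ g : Fin m → ℝ[X], (∀ k, t ≤ k.1 → g k = 0) ∧ (∀ k, IV (g k)) ∧
        ∀ i : Fin m, i.1 < t → Rd (N + t * D) (fun h => (b i + ∑ k, Q i k * g k).eval (h : ℝ)) := by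
  intro t
  induction t with
  | zero =>
    intro N b _
    exact ⟨fun _ => 0, fun _ _ => rfl, fun _ => IV.zero, fun i hi => absurd hi (Nat.not_lt_zero _)⟩
  | succ t ih =>
    intro N b hb
    rcases le_or_gt m t with hm | hm
    · obtain ⟨g, hg1, hg2, hg3⟩ := ih N b hb
      refine ⟨g, fun k hk => hg1 k (by omega), hg2, fun i _ => ?_⟩
      exact (hg3 i (lt_of_lt_of_le i.2 hm)).mono (by nlinarith)
    · set T : Fin m := ⟨t, hm⟩ with hT
      obtain ⟨Z, hZ1, hZ2, hZ3⟩ := red (b T) (hb T)
      have hb' : ∀ i, (b i + Q i T * Z).natDegree ≤ N + D := by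
        intro i
        refine (natDegree_add_le _ _).trans (max_le ((hb i).trans (by omega)) ?_)
        refine natDegree_mul_le.trans ?_
        have := hQd i T
        omega
      obtain ⟨g, hg1, hg2, hg3⟩ := ih (N + D) (fun i => b i + Q i T * Z) hb'
      have hgT : g T = 0 := hg1 T le_rfl
      have hsum : ∀ i, ∑ k, Q i k * (if k = T then Z else g k) = Q i T * Z + ∑ k, Q i k * g k := by
        intro i
        rw [← add_sum_erase univ _ (mem_univ T), ← add_sum_erase univ (fun k => Q i k * g k) (mem_univ T), if_pos rfl,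
          hgT, mul_zero, zero_add]
        congr 1
        apply sum_congr rfl
        intro k hk
        rw [if_neg (ne_of_mem_erase hk)]
      refine ⟨fun k => if k = T then Z else g k, fun k hk => ?_, fun k => ?_, fun i hi => ?_⟩
      · have h1 : k ≠ T := by
          rintro rfl
          simp [hT] at hk
        show (if k = T then Z else g k) = 0
        rw [if_neg h1]
        exact hg1 k (by omega)
      · show IV (if k = T then Z else g k)
        split_ifs
        · exact hZ2
        · exact hg2 k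
      · rw [hsum]
        rcases Nat.lt_succ_iff_lt_or_eq.1 hi with h1 | h1
        · have h2 := hg3 i h1
          have h3 : b i + (Q i T * Z + ∑ k, Q i k * g k) = b i + Q i T * Z + ∑ k, Q i k * g k := by ring
          rw [h3]
          exact h2.mono (le_of_eq (by ring))
        · have h2 : i = T := Fin.ext h1
          have h3 : ∑ k, Q i k * g k = 0 := by
            apply sum_eq_zero
            intro k _
            rcases lt_or_ge k.1 t with h4 | h4
            · rw [hQ0 i k (by rw [Fin.lt_def]; omega), zero_mul]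
            · rw [hg1 k h4, mul_zero]
          rw [h3, add_zero, h2, hQ1, one_mul]
          exact hZ3.mono (by nlinarith)

lemma colR {m : ℕ} {B : ℝ} (hB : 1 ≤ B) (A : Matrix (Fin m) (Fin m) ℝ) (hA1 : ∀ i, A i i = 1)
    (hA0 : ∀ i j, j < i → A i j = 0) (hAB : ∀ i j, |A i j| ≤ B) : ∀ (t : ℕ) (N : ℝ), 1 ≤ N → ∀ b : Fin m → ℝ,
      (∀ i, |b i| ≤ N) → ∃ g : Fin m → ℤ, (∀ k, t ≤ k.1 → g k = 0) ∧ (∀ k, |(g k : ℝ)| ≤ N * (3 * B) ^ t) ∧
        ∀ i : Fin m, i.1 < t → 0 ≤ b i + ∑ k, A i k * g k ∧ b i + ∑ k, A i k * g k ≤ 1 := by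
  intro t
  induction t with
  | zero =>
    intro N hN b _
    exact ⟨fun _ => 0, fun _ _ => rfl, fun _ => by simp; linarith, fun i hi => absurd hi (Nat.not_lt_zero _)⟩
  | succ t ih =>
    intro N hN b hb
    have hpow : (1 : ℝ) ≤ (3 * B) ^ t := one_le_pow₀ (by linarith)
    rcases le_or_gt m t with hm | hm
    · obtain ⟨g, hg1, hg2, hg3⟩ := ih N hN b hb
      refine ⟨g, fun k hk => hg1 k (by omega), fun k => (hg2 k).trans ?_, fun i _ => hg3 i (lt_of_lt_of_le i.2 hm)⟩
      rw [pow_succ]
      have : 0 ≤ N * (3 * B) ^ t := by positivity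
      nlinarith
    · set T : Fin m := ⟨t, hm⟩ with hT
      set Z : ℤ := -⌊b T⌋ with hZ
      have hZ1 : |(Z : ℝ)| ≤ 2 * N := by
        have h1 := Int.floor_le (b T)
        have h2 := Int.lt_floor_add_one (b T)
        have h3 := abs_le.1 (hb T)
        rw [hZ]
        push_cast
        rw [abs_neg, abs_le]
        constructor <;> linarith
      have hZ3 : 0 ≤ b T + Z ∧ b T + Z ≤ 1 := by
        have h1 := Int.floor_le (b T)
        have h2 := Int.lt_floor_add_one (b T)
        rw [hZ]
        push_cast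
        constructor <;> linarith
      have hb' : ∀ i, |b i + A i T * Z| ≤ 3 * N * B := by
        intro i
        refine (abs_add_le _ _).trans ?_
        rw [abs_mul]
        have h1 := mul_le_mul (hAB i T) hZ1 (abs_nonneg _) (by linarith)
        have h2 := hb i
        nlinarith
      obtain ⟨g, hg1, hg2, hg3⟩ := ih (3 * N * B) (by nlinarith) (fun i => b i + A i T * Z) hb'
      have hgT : g T = 0 := hg1 T le_rfl
      have hsum : ∀ i, ∑ k, A i k * ((if k = T then Z else g k : ℤ) : ℝ) = A i T * Z + ∑ k, A i k * g k := by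
        intro i
        rw [← add_sum_erase univ _ (mem_univ T), ← add_sum_erase univ (fun k => A i k * (g k : ℝ)) (mem_univ T), if_pos rfl,
          hgT, Int.cast_zero, mul_zero, zero_add]
        congr 1
        apply sum_congr rfl
        intro k hk
        rw [if_neg (ne_of_mem_erase hk)]
      refine ⟨fun k => if k = T then Z else g k, fun k hk => ?_, fun k => ?_, fun i hi => ?_⟩
      · have h1 : k ≠ T := by
          rintro rfl
          simp [hT] at hk
        show (if k = T then Z else g k) = 0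
        rw [if_neg h1]
        exact hg1 k (by omega)
      · show |((if k = T then Z else g k : ℤ) : ℝ)| ≤ _
        split_ifs
        · refine hZ1.trans ?_
          rw [pow_succ]
          have h5 : (2 : ℝ) ≤ (3 * B) ^ t * (3 * B) := by nlinarith
          have h6 := mul_le_mul_of_nonneg_left h5 (show (0 : ℝ) ≤ N by linarith)
          linarith
        · refine (hg2 k).trans (le_of_eq ?_)
          rw [pow_succ]
          ring
      · rw [hsum]
        rcases Nat.lt_succ_iff_lt_or_eq.1 hi with h1 | h1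
        · have h2 := hg3 i h1
          have h3 : b i + (A i T * Z + ∑ k, A i k * g k) = b i + A i T * Z + ∑ k, A i k * g k := by ring
          rw [h3]
          exact h2
        · have h2 : i = T := Fin.ext h1
          have h3 : ∑ k, A i k * (g k : ℝ) = 0 := by
            apply sum_eq_zero
            intro k _
            rcases lt_or_ge k.1 t with h4 | h4
            · rw [hA0 i k (by rw [Fin.lt_def]; omega), zero_mul]
            · rw [hg1 k h4, Int.cast_zero, mul_zero]
          rw [h3, add_zero, h2, hA1, one_mul]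
          exact hZ3

end Pool.Agent.N318.LS
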