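import Mathlib
import Pool.Agent.N318.LS.Defs
import Pool.Agent.N318.LS.F
import Pool.Agent.N318.LS.G

set_option autoImplicit false

/-! Covering numbers of the polynomial orbits on the nilmanifolds of unitriangular matrices (helper318). -/

namespace Pool.Agent.N318.LS

open Finset Polynomial

lemma Uni.mul {m : ℕ} {R : Type} [CommRing R] {A B : Matrix (Fin m) (Fin m) R} (hA : Uni A) (hB : Uni B) :
    Uni (A * B) := by
  constructor
  · intro i
    rw [Matrix.mul_apply, sum_eq_single i, hA.1, hB.1, one_mul]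
    · intro k _ hk
      rcases lt_or_gt_of_ne hk with h | h
      · rw [hA.2 i k h, zero_mul]
      · rw [hB.2 k i h, mul_zero]
    · intro h
      exact absurd (mem_univ i) h
  · intro i j hij
    rw [Matrix.mul_apply]
    apply sum_eq_zero
    intro k _
    rcases lt_or_ge k i with h | h
    · rw [hA.2 i k h, zero_mul]
    · rw [hB.2 k j (lt_of_lt_of_le hij h), mul_zero]

lemma mulcol {m : ℕ} {R : Type} [CommRing R] (A : Matrix (Fin m) (Fin m) R) (i j : Fin m)
    {g : Fin m → R} (hg : ∀ k : Fin m, j.1 ≤ k.1 → g k = 0) :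
    ∑ k, A i k * (if k = j then 1 else g k) = A i j + ∑ k, A i k * g k := by
  rw [← add_sum_erase univ _ (mem_univ j), ← add_sum_erase univ (fun k => A i k * g k) (mem_univ j), if_pos rfl, mul_one,
    hg j le_rfl, mul_zero, zero_add]
  congr 1
  apply sum_congr rfl
  intro k hk
  rw [if_neg (ne_of_mem_erase hk)]

lemma mulcol0 {m : ℕ} {R : Type} [CommRing R] {A : Matrix (Fin m) (Fin m) R} (hA : Uni A) {i j : Fin m} (hij : j ≤ i)
    {g : Fin m → R} (hg : ∀ k : Fin m, j.1 ≤ k.1 → g k = 0) : ∑ k, A i k * g k = 0 := by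
  apply sum_eq_zero
  intro k _
  rcases lt_or_ge k i with h | h
  · rw [hA.2 i k h, zero_mul]
  · rw [hg k (Fin.le_def.1 (hij.trans h)), mul_zero]

lemma reduceR {m : ℕ} {B : ℝ} (hB : 1 ≤ B) {A : Matrix (Fin m) (Fin m) ℝ} (hA : Uni A) (hAB : ∀ i j, |A i j| ≤ B) :
    ∃ g : Matrix (Fin m) (Fin m) ℤ, Uni g ∧ (∀ i j, |(g i j : ℝ)| ≤ B * (3 * B) ^ m) ∧
      ∀ i j, 0 ≤ (A * g.map (fun z => (z : ℝ))) i j ∧ (A * g.map (fun z => (z : ℝ))) i j ≤ 1 := by
  choose g hg1 hg2 hg3 using fun j : Fin m => colR hB A hA.1 hA.2 hAB j.1 B hB (fun i => A i j) (fun i => hAB i j)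
  have hcast : ∀ k j : Fin m, ((if k = j then 1 else g j k : ℤ) : ℝ) = if k = j then 1 else (g j k : ℝ) := by
    intro k j
    split_ifs <;> simp
  have hg1' : ∀ j k : Fin m, j.1 ≤ k.1 → ((g j k : ℤ) : ℝ) = 0 := by
    intro j k hk
    rw [hg1 j k hk, Int.cast_zero]
  refine ⟨fun k j => if k = j then 1 else g j k, ⟨fun i => if_pos rfl, fun i j hij => ?_⟩, fun i j => ?_, fun i j => ?_⟩
  · show (if i = j then (1 : ℤ) else g j i) = 0
    rw [if_neg (ne_of_gt hij)]
    exact hg1 j i (Fin.le_def.1 hij.le)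
  · show |((if i = j then (1 : ℤ) else g j i : ℤ) : ℝ)| ≤ _
    have h1 : (1 : ℝ) ≤ (3 * B) ^ m := one_le_pow₀ (by linarith)
    split_ifs
    · rw [Int.cast_one, abs_one]
      nlinarith
    · refine (hg2 j i).trans ?_
      apply mul_le_mul_of_nonneg_left _ (by linarith)
      exact pow_le_pow_right₀ (by linarith) j.2.le
  · have h1 : (A * (Matrix.map (fun k j => if k = j then (1 : ℤ) else g j k) (fun z : ℤ => (z : ℝ)))) i j =
        A i j + ∑ k, A i k * g j k := by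
      rw [Matrix.mul_apply, ← mulcol A i j (hg1' j)]
      apply sum_congr rfl
      intro k _
      rw [← hcast k j]
      rfl
    show 0 ≤ (A * (Matrix.map (fun k j => if k = j then (1 : ℤ) else g j k) (fun z : ℤ => (z : ℝ)))) i j ∧
      (A * (Matrix.map (fun k j => if k = j then (1 : ℤ) else g j k) (fun z : ℤ => (z : ℝ)))) i j ≤ 1
    rw [h1]
    rcases lt_or_ge i j with h | h
    · exact hg3 j i (Fin.lt_def.1 h)
    · rw [mulcol0 hA h (hg1' j), add_zero]
      rcases eq_or_lt_of_le h with h2 | h2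
      · rw [h2, hA.1]
        norm_num
      · rw [hA.2 i j h2]
        norm_num

lemma F_close {m : ℕ} {F : Matrix (Fin m) (Fin m) ℝ → ℂ} (hinv : Inv F) {K : ℝ} (hLip : LipB F K 2)
    {B : ℝ} (hB : 1 ≤ B) {A A' : Matrix (Fin m) (Fin m) ℝ} (hA : Uni A) (hA' : Uni A') (hAB : ∀ i j, |A i j| ≤ B)
    {η : ℝ} (hη : ∀ i j, |A i j - A' i j| ≤ η) (hη0 : 0 ≤ η) (hs : m * (η * (B * (3 * B) ^ m)) ≤ 1) :
    ‖F A - F A'‖ ≤ K * (m * (η * (B * (3 * B) ^ m))) := by
  obtain ⟨g, hg1, hg2, hg3⟩ := reduceR hB hA hAB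
  have hgR : Uni (g.map (fun z => (z : ℝ))) := by
    constructor
    · intro i
      rw [Matrix.map_apply, hg1.1, Int.cast_one]
    · intro i j hij
      rw [Matrix.map_apply, hg1.2 i j hij, Int.cast_zero]
  have hd : ∀ i j, |(A * g.map (fun z => (z : ℝ))) i j - (A' * g.map (fun z => (z : ℝ))) i j| ≤
      m * (η * (B * (3 * B) ^ m)) := by
    intro i j
    rw [Matrix.mul_apply, Matrix.mul_apply, ← sum_sub_distrib]
    refine (abs_sum_le_sum_abs _ _).trans ?_
    have h1 : ∀ k ∈ (univ : Finset (Fin m)), |A i k * g.map (fun z => (z : ℝ)) k j - A' i k * g.map (fun z => (z : ℝ)) k j| ≤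
        η * (B * (3 * B) ^ m) := by
      intro k _
      rw [← sub_mul, abs_mul, Matrix.map_apply]
      exact mul_le_mul (hη i k) (hg2 k j) (abs_nonneg _) hη0
    refine (sum_le_card_nsmul _ _ _ h1).trans (le_of_eq ?_)
    rw [card_univ, Fintype.card_fin, nsmul_eq_mul]
  rw [← hinv A g hA hg1, ← hinv A' g hA' hg1]
  apply hLip _ _ (hA.mul hgR) (hA'.mul hgR) _ _ hd
  intro i j
  have h1 := hg3 i j
  have h2 := abs_le.1 ((hd i j).trans hs)
  constructor
  · rw [abs_le]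
    constructor <;> linarith
  · rw [abs_le]
    constructor <;> linarith

/-- the reduced polynomial sequence -/
noncomputable def RM {m : ℕ} (N : ℕ) (c : Fin m → Fin m → ℕ → ℝ) (h : ℕ) : Matrix (Fin m) (Fin m) ℝ := fun i j =>
  if i = j then 1 else if i < j then ∑ l ∈ range (N + 1), c i j l * (h.choose l) else 0

lemma RM_uni {m : ℕ} (N : ℕ) (c : Fin m → Fin m → ℕ → ℝ) (h : ℕ) : Uni (RM N c h) := by
  constructor
  · intro i
    exact if_pos rfl
  · intro i j hij
    unfold RM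
    rw [if_neg (ne_of_gt hij), if_neg (not_lt_of_gt hij)]

lemma sum_choose_le {N h H : ℕ} (h1 : h ≤ H) (hH : 1 ≤ H) :
    ∑ l ∈ range (N + 1), (h.choose l : ℝ) ≤ (N + 1) * (H : ℝ) ^ N := by
  have h2 : ∀ l ∈ range (N + 1), (h.choose l : ℝ) ≤ (H : ℝ) ^ N := by
    intro l hl
    rw [mem_range] at hl
    have h3 : h.choose l ≤ H ^ N := by
      calc h.choose l ≤ h ^ l := Nat.choose_le_pow h l
        _ ≤ H ^ l := Nat.pow_le_pow_left h1 l
        _ ≤ H ^ N := Nat.pow_le_pow_right hH (by omega)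
    exact_mod_cast h3
  refine (sum_le_card_nsmul _ _ _ h2).trans (le_of_eq ?_)
  rw [card_range, nsmul_eq_mul]
  push_cast
  ring

lemma RM_bd {m N h H : ℕ} (h1 : h ≤ H) (hH : 1 ≤ H) {c : Fin m → Fin m → ℕ → ℝ} (hc : ∀ i j l, 0 ≤ c i j l ∧ c i j l ≤ 1)
    (i j : Fin m) : |RM N c h i j| ≤ (N + 1) * (H : ℝ) ^ N := by
  have hHr : (1 : ℝ) ≤ (H : ℝ) ^ N := one_le_pow₀ (by exact_mod_cast hH)
  have hN0 : (0 : ℝ) ≤ N := Nat.cast_nonneg _
  unfold RM
  split_ifs
  · rw [abs_one]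
    nlinarith
  · refine le_trans ?_ (sum_choose_le (N := N) h1 hH)
    refine (abs_sum_le_sum_abs _ _).trans (sum_le_sum fun l _ => ?_)
    rw [abs_mul, abs_of_nonneg (hc i j l).1, abs_of_nonneg (Nat.cast_nonneg _)]
    exact mul_le_of_le_one_left (Nat.cast_nonneg _) (hc i j l).2
  · rw [abs_zero]
    positivity

lemma RM_close {m N h H : ℕ} (h1 : h ≤ H) (hH : 1 ≤ H) {c c' : Fin m → Fin m → ℕ → ℝ} {η : ℝ} (hη : 0 ≤ η)
    (hc : ∀ i j, ∀ l ≤ N, |c i j l - c' i j l| ≤ η) (i j : Fin m) :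
    |RM N c h i j - RM N c' h i j| ≤ η * ((N + 1) * (H : ℝ) ^ N) := by
  have hpos : 0 ≤ η * ((N + 1) * (H : ℝ) ^ N) := by positivity
  unfold RM
  split_ifs
  · simpa using hpos
  · rw [← sum_sub_distrib]
    refine le_trans (abs_sum_le_sum_abs _ _) ?_
    refine le_trans ?_ (mul_le_mul_of_nonneg_left (sum_choose_le (N := N) h1 hH) hη)
    rw [mul_sum]
    apply sum_le_sum
    intro l hl
    rw [mem_range] at hl
    rw [← sub_mul, abs_mul, abs_of_nonneg (show (0 : ℝ) ≤ (h.choose l : ℝ) from Nat.cast_nonneg _)]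
    exact mul_le_mul_of_nonneg_right (hc i j l (by omega)) (Nat.cast_nonneg _)
  · simpa using hpos

/-- every polynomial orbit is a reduced one -/
lemma orbit_red0 {m D : ℕ} (Q : Matrix (Fin m) (Fin m) ℝ[X])
    (hQ : Uni Q) (hQd : ∀ i j, (Q i j).natDegree ≤ D) :
    ∃ c : Fin m → Fin m → ℕ → ℝ, (∀ i j l, 0 ≤ c i j l ∧ c i j l ≤ 1) ∧
      ∀ h : ℕ, Uni (fun i j => (Q i j).eval (h : ℝ)) ∧ ∃ G : Matrix (Fin m) (Fin m) ℤ, Uni G ∧
        (show Matrix (Fin m) (Fin m) ℝ from fun i j => (Q i j).eval (h : ℝ)) * G.map (fun z => (z : ℝ)) =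
          RM (D + m * D) c h := by
  choose g hg1 hg2 hg3 using fun j : Fin m => col Q hQ.1 hQ.2 hQd j.1 D (fun i => Q i j) (fun i => hQd i j)
  choose z hz using hg2
  have h1 : ∀ i j : Fin m, ∃ c : ℕ → ℝ, (∀ l, 0 ≤ c l ∧ c l ≤ 1) ∧ (i < j → ∀ h : ℕ,
      (Q i j + ∑ k, Q i k * g j k).eval (h : ℝ) = ∑ l ∈ range (D + m * D + 1), c l * (h.choose l)) := by
    intro i j
    by_cases hij : i < j
    · obtain ⟨c, hc1, hc2⟩ := (hg3 j i (Fin.lt_def.1 hij)).mono (show D + j.1 * D ≤ D + m * D by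
        have := Nat.mul_le_mul_right D j.2.le
        omega)
      exact ⟨c, hc1, fun _ => hc2⟩
    · exact ⟨fun _ => 0, fun _ => by norm_num, fun h => absurd h hij⟩
  choose c hc1 hc2 using h1
  refine ⟨c, hc1, fun h => ?_⟩
  set A : Matrix (Fin m) (Fin m) ℝ := fun i j => (Q i j).eval (h : ℝ) with hA
  have hAu : Uni A := by
    constructor
    · intro i
      rw [hA]
      show (Q i i).eval (h : ℝ) = 1
      rw [hQ.1, eval_one]
    · intro i j hij
      rw [hA]
      show (Q i j).eval (h : ℝ) = 0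
      rw [hQ.2 i j hij, eval_zero]
  set G : Matrix (Fin m) (Fin m) ℤ := fun k j => if k = j then 1 else (if j ≤ k then 0 else z j k h) with hG
  have hGu : Uni G := by
    constructor
    · intro i
      rw [hG]
      exact if_pos rfl
    · intro i j hij
      rw [hG]
      show (if i = j then (1 : ℤ) else (if j ≤ i then 0 else z j i h)) = 0
      rw [if_neg (ne_of_gt hij), if_pos hij.le]
  have hGr : ∀ k j, ((G k j : ℤ) : ℝ) = if k = j then 1 else (g j k).eval (h : ℝ) := by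
    intro k j
    rw [hG]
    show (((if k = j then (1 : ℤ) else (if j ≤ k then 0 else z j k h)) : ℤ) : ℝ) = _
    by_cases h1 : k = j
    · rw [if_pos h1, if_pos h1, Int.cast_one]
    · rw [if_neg h1, if_neg h1]
      by_cases h2 : j ≤ k
      · rw [if_pos h2, hg1 j k (Fin.le_def.1 h2), eval_zero, Int.cast_zero]
      · rw [if_neg h2, hz]
  have hprod : A * G.map (fun z => (z : ℝ)) = RM (D + m * D) c h := by
    have hgz : ∀ j k : Fin m, j.1 ≤ k.1 → (g j k).eval (h : ℝ) = 0 := by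
      intro j k hk
      rw [hg1 j k hk, eval_zero]
    ext i j
    have h2 : (A * G.map (fun z => (z : ℝ))) i j = A i j + ∑ k, A i k * (g j k).eval (h : ℝ) := by
      rw [Matrix.mul_apply, ← mulcol A i j (hgz j)]
      apply sum_congr rfl
      intro k _
      rw [Matrix.map_apply, hGr]
    rw [h2]
    unfold RM
    by_cases h3 : i = j
    · rw [if_pos h3, mulcol0 hAu (le_of_eq h3.symm) (hgz j), add_zero, h3, hAu.1]
    · rw [if_neg h3]
      by_cases h4 : i < j
      · rw [if_pos h4, ← hc2 i j h4 h, eval_add, eval_finsetSum]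
        simp only [eval_mul]
        rfl
      · rw [if_neg h4]
        have h5 : j < i := lt_of_le_of_ne (not_lt.1 h4) (Ne.symm h3)
        rw [mulcol0 hAu h5.le (hgz j), add_zero, hAu.2 i j h5]
  exact ⟨hAu, G, hGu, hprod⟩

lemma orbit_red {m D : ℕ} {F : Matrix (Fin m) (Fin m) ℝ → ℂ} (hinv : Inv F) (Q : Matrix (Fin m) (Fin m) ℝ[X])
    (hQ : Uni Q) (hQd : ∀ i j, (Q i j).natDegree ≤ D) :
    ∃ c : Fin m → Fin m → ℕ → ℝ, (∀ i j l, 0 ≤ c i j l ∧ c i j l ≤ 1) ∧
      ∀ h : ℕ, F (fun i j => (Q i j).eval (h : ℝ)) = F (RM (D + m * D) c h) := by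
  obtain ⟨c, hc1, hc2⟩ := orbit_red0 Q hQ hQd
  refine ⟨c, hc1, fun h => ?_⟩
  obtain ⟨hu, G, hG, hGe⟩ := hc2 h
  rw [← hGe]
  exact (hinv _ G hu hG).symm

end Pool.Agent.N318.LS
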