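import Mathlib
import Pool.Agent.N318.LS.H

set_option autoImplicit false

/-! Covering numbers of the polynomial orbits on the nilmanifolds of unitriangular matrices, and nilrotations (helper318). -/

namespace Pool.Agent.N318.LS

open Finset Polynomial

/-- the polynomial orbits of degree at most `D`, seen through `F` -/
def Orb {m : ℕ} (F : Matrix (Fin m) (Fin m) ℝ → ℂ) (D : ℕ) : Set (ℕ → ℂ) :=
  {a | ∃ Q : Matrix (Fin m) (Fin m) ℝ[X], Uni Q ∧ (∀ i j, (Q i j).natDegree ≤ D) ∧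
    a = fun h : ℕ => F (fun i j => (Q i j).eval (h : ℝ))}

theorem nil_cov {m : ℕ} {F : Matrix (Fin m) (Fin m) ℝ → ℂ} (hinv : Inv F) {K : ℝ} (hLip : LipB F K 2) (hK : 0 ≤ K)
    (hF1 : ∀ A, Uni A → ‖F A‖ ≤ 1) (D : ℕ) : PolyCov (Orb F D) := by
  classical
  set N : ℕ := D + m * D with hN
  set c0 : ℕ := (m + 1) * (N + 1) ^ (m + 2) * 3 ^ m with hc0
  set e0 : ℕ := N * (m + 2) + 1 with he0
  set E : ℕ := (N + 1) * m * m with hE
  refine ⟨(2 * c0) ^ E + e0 * E + ⌈K⌉₊, fun H hH => ?_⟩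
  have hc01 : 1 ≤ c0 := Nat.succ_le_of_lt (by positivity)
  set B : ℕ := (N + 1) * H ^ N with hB
  set M : ℕ := c0 * H ^ e0 with hM
  have hM1 : 1 ≤ M := Nat.succ_le_of_lt (by positivity)
  have hMr : (1 : ℝ) ≤ M := by exact_mod_cast hM1
  have hB1 : 1 ≤ B := Nat.succ_le_of_lt (by positivity)
  have hBr : (1 : ℝ) ≤ B := by exact_mod_cast hB1
  have hHr : (1 : ℝ) ≤ H := by exact_mod_cast hH
  have hH0 : (0 : ℝ) < H := by linarith
  have hMeq : (M : ℝ) = H * ((m + 1) * (B * (B * (3 * B) ^ m))) := by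
    rw [hM, hc0, he0, hB]
    push_cast
    rw [mul_pow, mul_pow, ← pow_mul]
    ring
  set η : ℝ := 1 / M * ((N + 1) * (H : ℝ) ^ N) with hη
  have hηB : η = B / M := by
    rw [hη, hB]
    push_cast
    ring
  have hη0 : 0 ≤ η := by positivity
  have hsmall : m * (η * (B * (3 * B) ^ m)) ≤ 1 / (H : ℝ) := by
    have h1 : (m : ℝ) * (η * (B * (3 * B) ^ m)) = m * (B * (B * (3 * (B : ℝ)) ^ m)) / M := by
      rw [hηB]
      ring
    rw [h1, hMeq, div_le_div_iff₀ (by positivity) hH0]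
    have h2 : 0 ≤ (B : ℝ) * (B * (3 * B) ^ m) := by positivity
    nlinarith
  -- the parameters
  set cc : (Fin m → Fin m → Fin (N + 1) → Fin (M + 1)) → Fin m → Fin m → ℕ → ℝ := fun κ i j l =>
    if hl : l < N + 1 then ((κ i j ⟨l, hl⟩ : ℕ) : ℝ) / M else 0 with hcc
  refine ⟨univ.image (fun κ : Fin m → Fin m → Fin (N + 1) → Fin (M + 1) => fun h : ℕ => F (RM N (cc κ) h)), ?_, ?_, ?_⟩
  · have h1 : (univ.image (fun κ : Fin m → Fin m → Fin (N + 1) → Fin (M + 1) => fun h : ℕ => F (RM N (cc κ) h))).card ≤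
        (M + 1) ^ E := by
      refine card_image_le.trans (le_of_eq ?_)
      rw [card_univ, Fintype.card_fun, Fintype.card_fun, Fintype.card_fun, Fintype.card_fin, Fintype.card_fin,
        Fintype.card_fin, hE, ← pow_mul, ← pow_mul]
      congr 1
      ring
    have h2 : (M + 1) ^ E ≤ ((2 * c0) ^ E + e0 * E + ⌈K⌉₊) * H ^ ((2 * c0) ^ E + e0 * E + ⌈K⌉₊) := by
      calc (M + 1) ^ E ≤ (2 * M) ^ E := Nat.pow_le_pow_left (by omega) E
        _ = (2 * c0) ^ E * H ^ (e0 * E) := by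
            rw [hM, ← mul_assoc, mul_pow, ← pow_mul]
        _ ≤ _ := Nat.mul_le_mul (by omega) (Nat.pow_le_pow_right hH (by omega))
    exact_mod_cast h1.trans h2
  · intro w hw h
    rw [mem_image] at hw
    obtain ⟨κ, _, rfl⟩ := hw
    exact hF1 _ (RM_uni _ _ _)
  · rintro a ⟨Q, hQ, hQd, rfl⟩
    obtain ⟨c, hc1, hc2⟩ := orbit_red hinv Q hQ hQd
    have hlt : ∀ i j l, ⌊(M : ℝ) * c i j l⌋₊ < M + 1 := by
      intro i j l
      have h1 : (M : ℝ) * c i j l ≤ M := mul_le_of_le_one_right (by linarith) (hc1 i j l).2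
      have h2 := (Nat.floor_le (mul_nonneg (by linarith) (hc1 i j l).1)).trans h1
      have h3 : ⌊(M : ℝ) * c i j l⌋₊ ≤ M := by exact_mod_cast h2
      omega
    set κ : Fin m → Fin m → Fin (N + 1) → Fin (M + 1) := fun i j l => ⟨⌊(M : ℝ) * c i j l⌋₊, hlt i j l⟩ with hκ
    have hM0 : (0 : ℝ) < M := by linarith
    have hcl : ∀ i j, ∀ l ≤ N, |c i j l - cc κ i j l| ≤ 1 / M := by
      intro i j l hl
      have h0 : cc κ i j l = (⌊(M : ℝ) * c i j l⌋₊ : ℝ) / M := by
        rw [hcc]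
        show (if hl : l < N + 1 then ((κ i j ⟨l, hl⟩ : ℕ) : ℝ) / M else 0) = _
        rw [dif_pos (by omega)]
      have h1 := Nat.floor_le (mul_nonneg hM0.le (hc1 i j l).1)
      have h2 := Nat.lt_floor_add_one ((M : ℝ) * c i j l)
      rw [h0]
      have h3 : c i j l - (⌊(M : ℝ) * c i j l⌋₊ : ℝ) / M = (M * c i j l - ⌊(M : ℝ) * c i j l⌋₊) / M := by
        field_simp
      rw [h3, abs_of_nonneg (div_nonneg (by linarith) hM0.le)]
      apply div_le_div_of_nonneg_right _ hM0.le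
      linarith
    refine ⟨_, mem_image_of_mem _ (mem_univ κ), ?_⟩
    have hpt : ∀ h ∈ Icc 1 H, ‖F (fun i j => (Q i j).eval (h : ℝ)) - F (RM N (cc κ) h)‖ ≤ K * (1 / H) := by
      intro h hh
      rw [mem_Icc] at hh
      rw [hc2 h]
      have h1 := F_close hinv hLip hBr (RM_uni N c h) (RM_uni N (cc κ) h)
        (fun i j => by
          have := RM_bd (N := N) hh.2 hH hc1 i j
          rw [hB]
          push_cast
          exact this)
        (η := η) (fun i j => RM_close hh.2 hH (by positivity) hcl i j) hη0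
        (hsmall.trans (by rw [div_le_one hH0]; exact hHr))
      exact h1.trans (mul_le_mul_of_nonneg_left hsmall hK)
    have hsum : ∑ h ∈ Icc 1 H, ‖F (fun i j => (Q i j).eval (h : ℝ)) - F (RM N (cc κ) h)‖ ≤ K := by
      refine (sum_le_card_nsmul _ _ _ hpt).trans (le_of_eq ?_)
      rw [Nat.card_Icc, Nat.add_sub_cancel, nsmul_eq_mul]
      field_simp
    refine hsum.trans ?_
    have h4 : K ≤ (⌈K⌉₊ : ℝ) := Nat.le_ceil K
    have h5 : (⌈K⌉₊ : ℝ) ≤ (((2 * c0) ^ E + e0 * E + ⌈K⌉₊ : ℕ) : ℝ) := by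
      exact_mod_cast (by omega : ⌈K⌉₊ ≤ (2 * c0) ^ E + e0 * E + ⌈K⌉₊)
    have h6 : (1 : ℝ) ≤ √(H : ℝ) := Real.one_le_sqrt.2 hHr
    have h7 : (0 : ℝ) ≤ (((2 * c0) ^ E + e0 * E + ⌈K⌉₊ : ℕ) : ℝ) := Nat.cast_nonneg _
    nlinarith

/-- the powers of a unitriangular matrix are polynomial -/
lemma pow_poly {m : ℕ} {g x : Matrix (Fin m) (Fin m) ℝ} (hg : Uni g) (hx : Uni x) :
    ∃ Q : Matrix (Fin m) (Fin m) ℝ[X], Uni Q ∧ (∀ i j, (Q i j).natDegree ≤ m) ∧
      ∀ h : ℕ, (fun i j => (Q i j).eval (h : ℝ)) = g ^ h * x := by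
  -- `(g - 1) ^ m = 0`
  have hnil : (g - 1) ^ m = 0 := by
    have h1 := Matrix.aeval_self_charpoly g
    have h2 : g.charpoly = (X - C 1) ^ m := by
      rw [Matrix.charpoly_of_upperTriangular g (fun i j hij => hg.2 i j hij)]
      rw [prod_congr rfl (fun i _ => by rw [hg.1 i])]
      rw [prod_const, card_univ, Fintype.card_fin]
    rw [h2, map_pow, map_sub, aeval_X, aeval_C, map_one] at h1
    exact h1
  have hpow : ∀ h : ℕ, g ^ h = ∑ l ∈ range (m + 1), (h.choose l) • (g - 1) ^ l := by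
    intro h
    have h1 : g ^ h = ∑ l ∈ range (h + 1), (h.choose l) • (g - 1) ^ l := by
      conv_lhs => rw [show g = (g - 1) + 1 by abel]
      rw [(Commute.one_right (g - 1)).add_pow]
      apply sum_congr rfl
      intro l _
      rw [one_pow, mul_one, nsmul_eq_mul]
      exact ((Nat.cast_commute (h.choose l) ((g - 1) ^ l)).eq).symm
    rw [h1]
    have h2 : ∑ l ∈ range (h + 1), (h.choose l) • (g - 1) ^ l =
        ∑ l ∈ range (max (h + 1) (m + 1)), (h.choose l) • (g - 1) ^ l := by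
      apply sum_subset (range_subset_range.2 (le_max_left _ _))
      intro k _ hk
      rw [mem_range, not_lt] at hk
      rw [Nat.choose_eq_zero_of_lt (by omega), zero_smul]
    have h3 : ∑ l ∈ range (m + 1), (h.choose l) • (g - 1) ^ l =
        ∑ l ∈ range (max (h + 1) (m + 1)), (h.choose l) • (g - 1) ^ l := by
      apply sum_subset (range_subset_range.2 (le_max_right _ _))
      intro k _ hk
      rw [mem_range, not_lt] at hk
      rw [show k = m + (k - m) by omega, pow_add, hnil, zero_mul, smul_zero]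
    rw [h2, h3]
  have hgh : ∀ h : ℕ, Uni (g ^ h * x) := by
    intro h
    induction h with
    | zero => rwa [pow_zero, one_mul]
    | succ h ih =>
      rw [pow_succ', mul_assoc]
      exact hg.mul ih
  have hent : ∀ (i j : Fin m) (h : ℕ), (g ^ h * x) i j =
      ∑ l ∈ range (m + 1), (h.choose l : ℝ) * ((g - 1) ^ l * x) i j := by
    intro i j h
    rw [hpow h, Finset.sum_mul, Matrix.sum_apply]
    apply sum_congr rfl
    intro l _
    rw [smul_mul_assoc, Matrix.smul_apply, nsmul_eq_mul]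
  refine ⟨fun i j => if i = j then 1 else if j < i then 0 else
    ∑ l ∈ range (m + 1), C (((g - 1) ^ l * x) i j) * bin l, ⟨fun i => if_pos rfl, fun i j hij => ?_⟩, fun i j => ?_, fun h => ?_⟩
  · show (if i = j then (1 : ℝ[X]) else if j < i then 0 else _) = 0
    rw [if_neg (ne_of_gt hij), if_pos hij]
  · show (if i = j then (1 : ℝ[X]) else if j < i then 0 else _).natDegree ≤ m
    split_ifs
    · simp
    · simp
    · apply natDegree_sum_le_of_forall_le
      intro l hl
      rw [mem_range] at hl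
      exact (natDegree_C_mul_le _ _).trans ((bin_deg l).trans (by omega))
  · ext i j
    show ((if i = j then (1 : ℝ[X]) else if j < i then 0 else
      ∑ l ∈ range (m + 1), C (((g - 1) ^ l * x) i j) * bin l)).eval (h : ℝ) = (g ^ h * x) i j
    split_ifs with h1 h2
    · rw [h1, (hgh h).1, eval_one]
    · rw [(hgh h).2 i j h2, eval_zero]
    · rw [hent, eval_finsetSum]
      apply sum_congr rfl
      intro l _
      rw [eval_mul, eval_C, bin_eval, mul_comm]

end Pool.Agent.N318.LS
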