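import Mathlib
import Pool.Agent.N318.LS.I

set_option autoImplicit false

/-! Nilmanifolds of closed subgroups of the unitriangular group (helper318). -/

namespace Pool.Agent.N318.LS

open Finset Polynomial Filter Topology

lemma rl_mul {m : ℕ} (g h : Matrix (Fin m) (Fin m) ℤ) : rl (g * h) = rl g * rl h := by
  ext i j
  unfold rl
  rw [Matrix.map_apply, Matrix.mul_apply, Matrix.mul_apply]
  push_cast
  rfl

lemma rl_one {m : ℕ} : rl (1 : Matrix (Fin m) (Fin m) ℤ) = 1 := by
  ext i j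
  unfold rl
  rw [Matrix.map_apply, Matrix.one_apply, Matrix.one_apply]
  split_ifs <;> simp

lemma rl_uni {m : ℕ} {g : Matrix (Fin m) (Fin m) ℤ} (hg : Uni g) : Uni (rl g) := by
  constructor
  · intro i
    unfold rl
    rw [Matrix.map_apply, hg.1, Int.cast_one]
  · intro i j hij
    unfold rl
    rw [Matrix.map_apply, hg.2 i j hij, Int.cast_zero]

lemma uni_of_rl {m : ℕ} {g : Matrix (Fin m) (Fin m) ℤ} (hg : Uni (rl g)) : Uni g := by
  constructor
  · intro i
    have := hg.1 i
    unfold rl at this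
    rw [Matrix.map_apply] at this
    exact_mod_cast this
  · intro i j hij
    have := hg.2 i j hij
    unfold rl at this
    rw [Matrix.map_apply] at this
    exact_mod_cast this

lemma uni_det {m : ℕ} {R : Type} [CommRing R] {A : Matrix (Fin m) (Fin m) R} (hA : Uni A) : A.det = 1 := by
  rw [Matrix.det_of_isUpperTriangular (fun i j hij => hA.2 i j hij)]
  exact prod_eq_one fun i _ => hA.1 i

lemma box_compact (m : ℕ) (R : ℝ) : IsCompact {A : Matrix (Fin m) (Fin m) ℝ | ∀ i j, |A i j| ≤ R} := by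
  have h1 : IsCompact (Set.univ.pi fun _ : Fin m => Set.univ.pi fun _ : Fin m => Set.Icc (-R) R) :=
    isCompact_univ_pi fun _ => isCompact_univ_pi fun _ => isCompact_Icc
  have h2 : {A : Matrix (Fin m) (Fin m) ℝ | ∀ i j, |A i j| ≤ R} =
      (Set.univ.pi fun _ : Fin m => Set.univ.pi fun _ : Fin m => Set.Icc (-R) R) := by
    ext A
    constructor
    · intro h i _ j _
      exact abs_le.1 (h i j)
    · intro h i j
      exact abs_le.2 (h i (Set.mem_univ i) j (Set.mem_univ j))
  rw [h2]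
  exact h1

lemma modulus {m : ℕ} {G : Set (Matrix (Fin m) (Fin m) ℝ)} (hG : Nilm G) {F : Matrix (Fin m) (Fin m) ℝ → ℂ}
    (hF : ContinuousOn F G) (hFi : ∀ A ∈ G, ∀ g : Matrix (Fin m) (Fin m) ℤ, rl g ∈ G → F (A * rl g) = F A)
    {δ : ℝ} (hδ : 0 < δ) : ∃ η : ℝ, 0 < η ∧ ∀ A ∈ G, ∀ A' ∈ G, ∀ g g' : Matrix (Fin m) (Fin m) ℤ, Uni g → Uni g' →
      (∀ i j, |(A * rl g) i j| ≤ 2) → (∀ i j, |(A * rl g) i j - (A' * rl g') i j| ≤ η) → ‖F A - F A'‖ ≤ δ := by
  have : FirstCountableTopology (Matrix (Fin m) (Fin m) ℝ) :=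
    inferInstanceAs (FirstCountableTopology (Fin m → Fin m → ℝ))
  by_contra hcon
  push Not at hcon
  obtain ⟨R, hR⟩ := hG.cocompact
  choose A hA A' hA' g g' hg hg' hb hc hFA using fun k : ℕ => hcon (1 / ((k : ℝ) + 1)) (by positivity)
  choose a ha α hα haα haR using fun k => hR (A k) (hA k)
  choose a' ha' α' hα' haα' haR' using fun k => hR (A' k) (hA' k)
  set θ : ℕ → Matrix (Fin m) (Fin m) ℤ := fun k => α k * g k with hθ
  set θ' : ℕ → Matrix (Fin m) (Fin m) ℤ := fun k => α' k * g' k with hθ'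
  have hθu : ∀ k, Uni (θ k) := fun k => (uni_of_rl (hG.uni _ (hα k))).mul (hg k)
  have hθu' : ∀ k, Uni (θ' k) := fun k => (uni_of_rl (hG.uni _ (hα' k))).mul (hg' k)
  have e1 : ∀ k, a k * rl (θ k) = A k * rl (g k) := by
    intro k
    rw [hθ]
    show a k * rl (α k * g k) = _
    rw [rl_mul, ← mul_assoc, ← haα k]
  have e2 : ∀ k, a' k * rl (θ' k) = A' k * rl (g' k) := by
    intro k
    rw [hθ']
    show a' k * rl (α' k * g' k) = _
    rw [rl_mul, ← mul_assoc, ← haα' k]
  have hb' : ∀ k i j, |(A' k * rl (g' k)) i j| ≤ 3 := by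
    intro k i j
    have h1 := abs_le.1 (hb k i j)
    have h2 := abs_le.1 (hc k i j)
    have h3 : 1 / ((k : ℝ) + 1) ≤ 1 := by
      rw [div_le_one (by positivity)]
      have : (0 : ℝ) ≤ k := Nat.cast_nonneg _
      linarith
    rw [abs_le]
    constructor <;> linarith
  -- compactness
  set T : Set (Matrix (Fin m) (Fin m) ℝ) := (fun p : Matrix (Fin m) (Fin m) ℝ × Matrix (Fin m) (Fin m) ℝ =>
    Matrix.adjugate p.1 * p.2) '' ({A | ∀ i j, |A i j| ≤ R} ×ˢ {A | ∀ i j, |A i j| ≤ 3}) with hT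
  have hTc : IsCompact T := by
    apply ((box_compact m R).prod (box_compact m 3)).image
    exact (continuous_fst.matrix_adjugate).matrix_mul continuous_snd
  have hadj : ∀ (B X : Matrix (Fin m) (Fin m) ℝ), Uni B → Matrix.adjugate B * (B * X) = X := by
    intro B X hB
    rw [← mul_assoc, Matrix.adjugate_mul, uni_det hB, one_smul, one_mul]
  have hθT : ∀ k, rl (θ k) ∈ T := by
    intro k
    refine ⟨(a k, a k * rl (θ k)), ⟨haR k, ?_⟩, hadj _ _ (hG.uni _ (ha k))⟩
    intro i j
    show |(a k * rl (θ k)) i j| ≤ 3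
    rw [e1]
    exact (hb k i j).trans (by norm_num)
  have hθT' : ∀ k, rl (θ' k) ∈ T := by
    intro k
    refine ⟨(a' k, a' k * rl (θ' k)), ⟨haR' k, ?_⟩, hadj _ _ (hG.uni _ (ha' k))⟩
    intro i j
    show |(a' k * rl (θ' k)) i j| ≤ 3
    rw [e2]
    exact hb' k i j
  obtain ⟨⟨⟨b, b'⟩, ⟨t, t'⟩⟩, _, φ, hφ, hlim⟩ :=
    (((box_compact m R).prod (box_compact m R)).prod (hTc.prod hTc)).tendsto_subseq
      (x := fun k => ((a k, a' k), (rl (θ k), rl (θ' k))))
      (fun k => ⟨⟨haR k, haR' k⟩, ⟨hθT k, hθT' k⟩⟩)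
  have l1 : Tendsto (fun k => a (φ k)) atTop (𝓝 b) :=
    ((continuous_fst.comp continuous_fst).tendsto _).comp hlim
  have l2 : Tendsto (fun k => a' (φ k)) atTop (𝓝 b') :=
    ((continuous_snd.comp continuous_fst).tendsto _).comp hlim
  have l3 : Tendsto (fun k => rl (θ (φ k))) atTop (𝓝 t) :=
    ((continuous_fst.comp continuous_snd).tendsto _).comp hlim
  have l4 : Tendsto (fun k => rl (θ' (φ k))) atTop (𝓝 t') :=
    ((continuous_snd.comp continuous_snd).tendsto _).comp hlim
  have hbG : b ∈ G := hG.closed.mem_of_tendsto l1 (Eventually.of_forall fun k => ha _)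
  have hbG' : b' ∈ G := hG.closed.mem_of_tendsto l2 (Eventually.of_forall fun k => ha' _)
  -- the limits of the integer matrices
  have hint : ∀ (s : ℕ → Matrix (Fin m) (Fin m) ℤ) (r : Matrix (Fin m) (Fin m) ℝ), (∀ k, Uni (s k)) →
      Tendsto (fun k => rl (s k)) atTop (𝓝 r) → ∃ S : Matrix (Fin m) (Fin m) ℤ, Uni S ∧ rl S = r := by
    intro s r hs hl
    have h1 : ∀ i j, Tendsto (fun k => rl (s k) i j) atTop (𝓝 (r i j)) := by
      intro i j
      exact ((continuous_apply_apply (ρ := fun _ _ => ℝ) i j).tendsto r).comp hl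
    have h2 : ∀ i j, ∃ z : ℤ, (z : ℝ) = r i j := by
      intro i j
      exact Int.isClosedEmbedding_coe_real.isClosed_range.mem_of_tendsto (h1 i j)
        (Eventually.of_forall fun k => ⟨s k i j, rfl⟩)
    choose z hz using h2
    have h3 : rl (fun i j => z i j) = r := by
      ext i j
      exact hz i j
    refine ⟨fun i j => z i j, ?_, h3⟩
    apply uni_of_rl
    rw [h3]
    constructor
    · intro i
      refine tendsto_nhds_unique (h1 i i) ?_
      refine tendsto_const_nhds.congr fun k => ?_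
      exact ((rl_uni (hs k)).1 i).symm
    · intro i j hij
      refine tendsto_nhds_unique (h1 i j) ?_
      refine tendsto_const_nhds.congr fun k => ?_
      exact ((rl_uni (hs k)).2 i j hij).symm
  obtain ⟨S, hS, hSt⟩ := hint (fun k => θ (φ k)) t (fun k => hθu _) l3
  obtain ⟨S', hS', hSt'⟩ := hint (fun k => θ' (φ k)) t' (fun k => hθu' _) l4
  -- the limit identity
  have hprod : b * t = b' * t' := by
    have m1 : Tendsto (fun k => a (φ k) * rl (θ (φ k))) atTop (𝓝 (b * t)) :=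
      (((continuous_fst.matrix_mul continuous_snd).tendsto (b, t)).comp (l1.prodMk_nhds l3))
    have m2 : Tendsto (fun k => a' (φ k) * rl (θ' (φ k))) atTop (𝓝 (b' * t')) :=
      (((continuous_fst.matrix_mul continuous_snd).tendsto (b', t')).comp (l2.prodMk_nhds l4))
    ext i j
    have n1 : Tendsto (fun k => (a (φ k) * rl (θ (φ k))) i j - (a' (φ k) * rl (θ' (φ k))) i j) atTop
        (𝓝 ((b * t) i j - (b' * t') i j)) :=
      (((continuous_apply_apply (ρ := fun _ _ => ℝ) i j).tendsto _).comp m1).sub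
        (((continuous_apply_apply (ρ := fun _ _ => ℝ) i j).tendsto _).comp m2)
    have n2 : Tendsto (fun k => 1 / (((φ k : ℕ) : ℝ) + 1)) atTop (𝓝 0) :=
      (tendsto_one_div_add_atTop_nhds_zero_nat (𝕜 := ℝ)).comp hφ.tendsto_atTop
    have n3 : Tendsto (fun k => (a (φ k) * rl (θ (φ k))) i j - (a' (φ k) * rl (θ' (φ k))) i j) atTop (𝓝 0) := by
      refine squeeze_zero_norm (fun k => ?_) n2
      rw [e1, e2, Real.norm_eq_abs]
      exact hc _ i j
    have n4 := tendsto_nhds_unique n1 n3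
    linarith
  -- the integer matrix in `G`
  have hb'eq : b' = b * rl (S * Matrix.adjugate S') := by
    have h1 : rl S' * rl (Matrix.adjugate S') = 1 := by
      rw [← rl_mul, Matrix.mul_adjugate, uni_det hS', one_smul, rl_one]
    rw [rl_mul, ← mul_assoc, hSt, hprod, ← hSt', mul_assoc, h1, mul_one]
  have hτ : rl (S * Matrix.adjugate S') ∈ G := by
    obtain ⟨c, hc1, hc2⟩ := hG.inv b hbG
    have h1 : c * b = 1 := mul_eq_one_comm.1 hc2
    have h2 : rl (S * Matrix.adjugate S') = c * b' := by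
      rw [hb'eq, ← mul_assoc, h1, one_mul]
    rw [h2]
    exact hG.mul _ hc1 _ hbG'
  have hFeq : F b' = F b := by
    conv_lhs => rw [hb'eq]
    exact hFi b hbG _ hτ
  have f1 : Tendsto (fun k => F (a (φ k))) atTop (𝓝 (F b)) :=
    (hF b hbG).tendsto.comp (tendsto_nhdsWithin_iff.2 ⟨l1, Eventually.of_forall fun k => ha _⟩)
  have f2 : Tendsto (fun k => F (a' (φ k))) atTop (𝓝 (F b')) :=
    (hF b' hbG').tendsto.comp (tendsto_nhdsWithin_iff.2 ⟨l2, Eventually.of_forall fun k => ha' _⟩)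
  have f3 := (f1.sub f2).norm
  rw [hFeq, sub_self, norm_zero] at f3
  have f4 : δ ≤ 0 := by
    refine ge_of_tendsto f3 (Eventually.of_forall fun k => ?_)
    have h1 := hFA (φ k)
    rw [haα (φ k), haα' (φ k), hFi _ (ha _) _ (hα _), hFi _ (ha' _) _ (hα' _)] at h1
    exact h1.le
  linarith

end Pool.Agent.N318.LS
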