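import Mathlib
import Pool.Agent.N318.LS.J

set_option autoImplicit false

/-! Covering numbers of the polynomial orbits on the nilmanifolds of closed unitriangular groups (helper318). -/

namespace Pool.Agent.N318.LS

open Finset Polynomial Filter Topology

lemma net (m N : ℕ) : ∃ C : ℕ, ∀ H : ℕ, 1 ≤ H → ∃ (I : Type) (_ : Fintype I) (κ : (Fin m → Fin m → ℕ → ℝ) → I),
    (Fintype.card I : ℝ) ≤ C * (H : ℝ) ^ C ∧ ∀ c c' : Fin m → Fin m → ℕ → ℝ, (∀ i j l, 0 ≤ c i j l ∧ c i j l ≤ 1) →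
      (∀ i j l, 0 ≤ c' i j l ∧ c' i j l ≤ 1) → κ c = κ c' → ∀ h ∈ Icc 1 H, ∃ g : Matrix (Fin m) (Fin m) ℤ, Uni g ∧
        (∀ i j, |(RM N c h * rl g) i j| ≤ 1) ∧ ∀ i j, |(RM N c h * rl g) i j - (RM N c' h * rl g) i j| ≤ 1 / H := by
  classical
  set c0 : ℕ := (m + 1) * (N + 1) ^ (m + 2) * 3 ^ m with hc0
  set e0 : ℕ := N * (m + 2) + 1 with he0
  set E : ℕ := (N + 1) * m * m with hE
  refine ⟨(2 * c0) ^ E + e0 * E, fun H hH => ?_⟩
  have hc01 : 1 ≤ c0 := Nat.succ_le_of_lt (by positivity)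
  set B : ℕ := (N + 1) * H ^ N with hB
  set M : ℕ := c0 * H ^ e0 with hM
  have hM1 : 1 ≤ M := Nat.succ_le_of_lt (by positivity)
  have hMr : (1 : ℝ) ≤ M := by exact_mod_cast hM1
  have hB1 : 1 ≤ B := Nat.succ_le_of_lt (by positivity)
  have hBr : (1 : ℝ) ≤ B := by exact_mod_cast hB1
  have hHr : (1 : ℝ) ≤ H := by exact_mod_cast hH
  have hH0 : (0 : ℝ) < H := by linarith
  have hM0 : (0 : ℝ) < M := by linarith
  have hMeq : (M : ℝ) = H * ((m + 1) * (B * (B * (3 * B) ^ m))) := by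
    rw [hM, hc0, he0, hB]
    push_cast
    rw [mul_pow, mul_pow, ← pow_mul]
    ring
  set η : ℝ := 1 / M * ((N + 1) * (H : ℝ) ^ N) with hη
  have hηB : η = B / M := by
    rw [hη, hB]
    push_cast
    ring
  have hη0 : 0 ≤ η := by positivity
  have hsmall : m * (η * (B * (3 * B) ^ m)) ≤ 1 / (H : ℝ) := by
    have h1 : (m : ℝ) * (η * (B * (3 * B) ^ m)) = m * (B * (B * (3 * (B : ℝ)) ^ m)) / M := by
      rw [hηB]
      ring
    rw [h1, hMeq, div_le_div_iff₀ (by positivity) hH0]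
    have h2 : 0 ≤ (B : ℝ) * (B * (3 * B) ^ m) := by positivity
    nlinarith
  have hlt : ∀ x : ℝ, min ⌊(M : ℝ) * x⌋₊ M < M + 1 := fun x => by omega
  refine ⟨Fin m → Fin m → Fin (N + 1) → Fin (M + 1), inferInstance,
    fun c i j l => ⟨min ⌊(M : ℝ) * c i j l⌋₊ M, hlt _⟩, ?_, ?_⟩
  · have h1 : Fintype.card (Fin m → Fin m → Fin (N + 1) → Fin (M + 1)) = (M + 1) ^ E := by
      rw [Fintype.card_fun, Fintype.card_fun, Fintype.card_fun, Fintype.card_fin, Fintype.card_fin,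
        Fintype.card_fin, hE, ← pow_mul, ← pow_mul]
      congr 1
      ring
    have h2 : (M + 1) ^ E ≤ ((2 * c0) ^ E + e0 * E) * H ^ ((2 * c0) ^ E + e0 * E) := by
      calc (M + 1) ^ E ≤ (2 * M) ^ E := Nat.pow_le_pow_left (by omega) E
        _ = (2 * c0) ^ E * H ^ (e0 * E) := by
            rw [hM, ← mul_assoc, mul_pow, ← pow_mul]
        _ ≤ _ := Nat.mul_le_mul (by omega) (Nat.pow_le_pow_right hH (by omega))
    rw [h1]
    exact_mod_cast h2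
  · intro c c' hc hc' hκ h hh
    rw [mem_Icc] at hh
    have hfl : ∀ i j, ∀ l ≤ N, ⌊(M : ℝ) * c i j l⌋₊ = ⌊(M : ℝ) * c' i j l⌋₊ := by
      intro i j l hl
      have h1 := congrArg Fin.val (congrFun (congrFun (congrFun hκ i) j) ⟨l, by omega⟩)
      have h2 : ∀ x : ℝ, 0 ≤ x → x ≤ 1 → ⌊(M : ℝ) * x⌋₊ ≤ M := by
        intro x hx0 hx1
        have h3 := (Nat.floor_le (mul_nonneg hM0.le hx0)).trans (mul_le_of_le_one_right hM0.le hx1)
        exact_mod_cast h3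
      have h3 := h2 _ (hc i j l).1 (hc i j l).2
      have h4 := h2 _ (hc' i j l).1 (hc' i j l).2
      have h5 : min ⌊(M : ℝ) * c i j l⌋₊ M = min ⌊(M : ℝ) * c' i j l⌋₊ M := h1
      omega
    have hcl : ∀ i j, ∀ l ≤ N, |c i j l - c' i j l| ≤ 1 / M := by
      intro i j l hl
      have h1 := Nat.floor_le (mul_nonneg hM0.le (hc i j l).1)
      have h2 := Nat.lt_floor_add_one ((M : ℝ) * c i j l)
      have h3 := Nat.floor_le (mul_nonneg hM0.le (hc' i j l).1)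
      have h4 := Nat.lt_floor_add_one ((M : ℝ) * c' i j l)
      rw [hfl i j l hl] at h1 h2
      rw [abs_le, neg_le, le_div_iff₀ hM0, le_div_iff₀ hM0]
      constructor <;> nlinarith
    obtain ⟨g, hg1, hg2, hg3⟩ := reduceR hBr (RM_uni N c h) (fun i j => by
      have := RM_bd (N := N) hh.2 hH hc i j
      rw [hB]
      push_cast
      exact this)
    refine ⟨g, hg1, fun i j => ?_, fun i j => ?_⟩
    · have := hg3 i j
      rw [abs_le]
      exact ⟨by show -1 ≤ (RM N c h * g.map (fun z => (z : ℝ))) i j; linarith, this.2⟩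
    · have hcc := fun i j => RM_close (m := m) hh.2 hH (by positivity : (0 : ℝ) ≤ 1 / M) hcl i j
      rw [Matrix.mul_apply, Matrix.mul_apply, ← sum_sub_distrib]
      refine ((abs_sum_le_sum_abs _ _).trans ?_).trans hsmall
      have h1 : ∀ k ∈ (univ : Finset (Fin m)), |RM N c h i k * rl g k j - RM N c' h i k * rl g k j| ≤
          η * (B * (3 * B) ^ m) := by
        intro k _
        rw [← sub_mul, abs_mul]
        exact mul_le_mul (hcc i k) (hg2 k j) (abs_nonneg _) hη0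
      refine (sum_le_card_nsmul _ _ _ h1).trans (le_of_eq ?_)
      rw [card_univ, Fintype.card_fin, nsmul_eq_mul]

lemma poly_exp (C : ℕ) {δ : ℝ} (hδ : 0 < δ) : ∃ H₀ : ℕ, ∀ H : ℕ, H₀ ≤ H → (C : ℝ) * (H : ℝ) ^ C ≤ Real.exp (δ * H) := by
  have h1 : Tendsto (fun H : ℕ => (C : ℝ) / δ ^ C * ((δ * (H : ℝ)) ^ C * Real.exp (-(δ * H)))) atTop
      (𝓝 ((C : ℝ) / δ ^ C * 0)) := by
    apply Tendsto.const_mul
    exact (Real.tendsto_pow_mul_exp_neg_atTop_nhds_zero C).comp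
      (tendsto_natCast_atTop_atTop.const_mul_atTop hδ)
  rw [mul_zero] at h1
  have h2 := h1.eventually (ge_mem_nhds (show (0 : ℝ) < 1 by norm_num))
  rw [eventually_atTop] at h2
  obtain ⟨H₀, hH₀⟩ := h2
  refine ⟨H₀, fun H hH => ?_⟩
  have h3 := hH₀ H hH
  have h4 : (C : ℝ) / δ ^ C * ((δ * (H : ℝ)) ^ C * Real.exp (-(δ * H))) = C * (H : ℝ) ^ C / Real.exp (δ * H) := by
    rw [mul_pow, Real.exp_neg]
    field_simp
  rw [h4, div_le_one (Real.exp_pos _)] at h3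
  exact h3

/-- the polynomial orbits of degree at most `D` in `G`, seen through `F` -/
def OrbG {m : ℕ} (G : Set (Matrix (Fin m) (Fin m) ℝ)) (F : Matrix (Fin m) (Fin m) ℝ → ℂ) (D : ℕ) : Set (ℕ → ℂ) :=
  {a | ∃ Q : Matrix (Fin m) (Fin m) ℝ[X], (Uni Q ∧ (∀ i j, (Q i j).natDegree ≤ D) ∧
    ∀ h : ℕ, (fun i j => (Q i j).eval (h : ℝ)) ∈ G) ∧ a = fun h : ℕ => F (fun i j => (Q i j).eval (h : ℝ))}

theorem nilG_cov {m : ℕ} {G : Set (Matrix (Fin m) (Fin m) ℝ)} (hG : Nilm G) {F : Matrix (Fin m) (Fin m) ℝ → ℂ}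
    (hF : ContinuousOn F G) (hFi : ∀ A ∈ G, ∀ g : Matrix (Fin m) (Fin m) ℤ, rl g ∈ G → F (A * rl g) = F A)
    (hF1 : ∀ A ∈ G, ‖F A‖ ≤ 1) (D : ℕ) : SubExp (OrbG G F D) := by
  classical
  intro δ hδ
  obtain ⟨η, hη, hmod⟩ := modulus hG hF hFi hδ
  obtain ⟨C, hC⟩ := net m (D + m * D)
  obtain ⟨H₁, hH₁⟩ := poly_exp C hδ
  obtain ⟨H₂, hH₂⟩ := exists_nat_ge (1 / η)
  refine ⟨max H₁ (max H₂ 1), fun H hH => ?_⟩
  have hH1 : 1 ≤ H := (le_max_right _ _).trans ((le_max_right _ _).trans hH)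
  have hHη : 1 / (H : ℝ) ≤ η := by
    have h1 : H₂ ≤ H := (le_max_left _ _).trans ((le_max_right _ _).trans hH)
    have h2 : (H₂ : ℝ) ≤ H := by exact_mod_cast h1
    have h3 : (0 : ℝ) < H := by exact_mod_cast hH1
    rw [div_le_iff₀ h3]
    rw [div_le_iff₀ hη] at hH₂
    nlinarith
  obtain ⟨I, _, κ, hI, hκ⟩ := hC H hH1
  have hcard := hI.trans (hH₁ H ((le_max_left _ _).trans hH))
  choose cQ hcQ1 hcQ2 using fun Q : {Q : Matrix (Fin m) (Fin m) ℝ[X] // Uni Q ∧ (∀ i j, (Q i j).natDegree ≤ D) ∧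
    ∀ h : ℕ, (fun i j => (Q i j).eval (h : ℝ)) ∈ G} => orbit_red0 Q.1 Q.2.1 Q.2.2.1
  refine ⟨univ.image (fun k : I => if hk : ∃ Q : {Q : Matrix (Fin m) (Fin m) ℝ[X] // Uni Q ∧
    (∀ i j, (Q i j).natDegree ≤ D) ∧ ∀ h : ℕ, (fun i j => (Q i j).eval (h : ℝ)) ∈ G}, κ (cQ Q) = k then
      (fun h : ℕ => F (fun i j => ((Classical.choose hk).1 i j).eval (h : ℝ))) else fun _ => 0), ?_, ?_, ?_⟩
  · refine le_trans ?_ hcard
    exact_mod_cast card_image_le.trans (le_of_eq card_univ)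
  · intro w hw h
    rw [mem_image] at hw
    obtain ⟨k, _, rfl⟩ := hw
    by_cases hk : ∃ Q : {Q : Matrix (Fin m) (Fin m) ℝ[X] // Uni Q ∧
      (∀ i j, (Q i j).natDegree ≤ D) ∧ ∀ h : ℕ, (fun i j => (Q i j).eval (h : ℝ)) ∈ G}, κ (cQ Q) = k
    · rw [dif_pos hk]
      exact hF1 _ ((Classical.choose hk).2.2.2 h)
    · rw [dif_neg hk]
      simp
  · rintro a ⟨Q, hQ, rfl⟩
    have hk : ∃ Q' : {Q : Matrix (Fin m) (Fin m) ℝ[X] // Uni Q ∧
      (∀ i j, (Q i j).natDegree ≤ D) ∧ ∀ h : ℕ, (fun i j => (Q i j).eval (h : ℝ)) ∈ G}, κ (cQ Q') = κ (cQ ⟨Q, hQ⟩) :=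
      ⟨⟨Q, hQ⟩, rfl⟩
    refine ⟨_, mem_image_of_mem _ (mem_univ (κ (cQ ⟨Q, hQ⟩))), ?_⟩
    have h1 : ∀ h ∈ Icc 1 H, ‖F (fun i j => (Q i j).eval (h : ℝ)) - (if hk : ∃ Q' : {Q : Matrix (Fin m) (Fin m) ℝ[X] // Uni Q ∧
        (∀ i j, (Q i j).natDegree ≤ D) ∧ ∀ h : ℕ, (fun i j => (Q i j).eval (h : ℝ)) ∈ G}, κ (cQ Q') = κ (cQ ⟨Q, hQ⟩) then
        (fun h : ℕ => F (fun i j => ((Classical.choose hk).1 i j).eval (h : ℝ))) else fun _ => 0) h‖ ≤ δ := by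
      intro h hh
      rw [dif_pos hk]
      have hsel := Classical.choose_spec hk
      set Q' := Classical.choose hk with hQ'
      obtain ⟨g, hg1, hg2, hg3⟩ := hκ (cQ ⟨Q, hQ⟩) (cQ Q') (hcQ1 _) (hcQ1 _) hsel.symm h hh
      obtain ⟨_, G1, hG1, hG1e⟩ := hcQ2 ⟨Q, hQ⟩ h
      obtain ⟨_, G2, hG2, hG2e⟩ := hcQ2 Q' h
      have e1 : (show Matrix (Fin m) (Fin m) ℝ from fun i j => (Q i j).eval (h : ℝ)) * rl (G1 * g) =
          RM (D + m * D) (cQ ⟨Q, hQ⟩) h * rl g := by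
        rw [rl_mul, ← mul_assoc, ← hG1e]
        rfl
      have e2 : (show Matrix (Fin m) (Fin m) ℝ from fun i j => (Q'.1 i j).eval (h : ℝ)) * rl (G2 * g) =
          RM (D + m * D) (cQ Q') h * rl g := by
        rw [rl_mul, ← mul_assoc, ← hG2e]
        rfl
      apply hmod _ (hQ.2.2 h) _ (Q'.2.2.2 h) (G1 * g) (G2 * g) (hG1.mul hg1) (hG2.mul hg1)
      · intro i j
        have := hg2 i j
        rw [← e1] at this
        exact this.trans (by norm_num)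
      · intro i j
        have := hg3 i j
        rw [← e1, ← e2] at this
        exact this.trans hHη
    refine (sum_le_card_nsmul _ _ _ h1).trans (le_of_eq ?_)
    rw [Nat.card_Icc, Nat.add_sub_cancel, nsmul_eq_mul]
    ring

end Pool.Agent.N318.LS
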