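import Mathlib
import Pool.Agent.N318.LS.K

set_option autoImplicit false

/-! Short sums along nilsequences: the two bounds (helper318). -/

namespace Pool.Agent.N318.LS

open Finset Polynomial Filter Topology

lemma uni_of_ev {m : ℕ} {Q : Matrix (Fin m) (Fin m) ℝ[X]} (hQ : ∀ h : ℕ, Uni (ev Q h)) : Uni Q := by
  have key : ∀ p q : ℝ[X], (∀ h : ℕ, p.eval (h : ℝ) = q.eval (h : ℝ)) → p = q := by
    intro p q hpq
    apply Polynomial.eq_of_infinite_eval_eq
    exact Set.infinite_of_injective_forall_mem (f := fun h : ℕ => (h : ℝ)) Nat.cast_injective hpq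
  constructor
  · intro i
    apply key
    intro h
    rw [eval_one]
    exact (hQ h).1 i
  · intro i j hij
    apply key
    intro h
    rw [eval_zero]
    exact (hQ h).2 i j hij

/-- multiplying the class by a constant -/
lemma scale {f : ℕ → ℂ} {b a : ℕ → ℂ} {M : ℝ} (hM : 0 < M) (hab : ∀ h, a h = M * b h) (n H : ℕ) {B : ℝ}
    (hb : ‖∑ h ∈ Icc 1 H, b h * f (n + h)‖ ≤ B) : ‖∑ h ∈ Icc 1 H, a h * f (n + h)‖ ≤ M * B := by
  have e2 : ∑ h ∈ Icc 1 H, a h * f (n + h) = M * ∑ h ∈ Icc 1 H, b h * f (n + h) := by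
    rw [mul_sum]
    apply sum_congr rfl
    intro h _
    rw [hab]
    ring
  rw [e2, norm_mul, Complex.norm_real, Real.norm_eq_abs, abs_of_pos hM]
  exact mul_le_mul_of_nonneg_left hb hM.le

/-- the quantitative bound -/
theorem quant {m : ℕ} {F : Matrix (Fin m) (Fin m) ℝ → ℂ} (hinv : Inv F) {K : ℝ} (hLip : LipB F K 2) (D : ℕ) :
    ∃ C : ℝ, ∀ f : ℕ → ℂ, (∀ n, ‖f n‖ ≤ 1) → MG (fun n => (f n).re) → MG (fun n => (f n).im) → ∀ H : ℕ, 2 ≤ H →
      ∀ᶠ N : ℕ in atTop, ∀ Q : ℕ → Matrix (Fin m) (Fin m) ℝ[X], (∀ n, Uni (Q n)) → (∀ n i j, (Q n i j).natDegree ≤ D) →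
        ∑ n ∈ Icc 1 N, ‖∑ h ∈ Icc 1 H, F (ev (Q n) h) * f (n + h)‖ / n ≤ C * √(H * Real.log H) * Real.log N := by
  -- `F` is bounded
  set K' : ℝ := max K 0 with hK'
  have hLip' : LipB F K' 2 := by
    intro A B hA hB hAB η hη
    rcases Nat.eq_zero_or_pos m with rfl | hm
    · have : A = B := by
        ext i
        exact i.elim0
      rw [this, sub_self, norm_zero]
      by_cases h0 : 0 ≤ η
      · exact mul_nonneg (le_max_right _ _) h0
      · have h1 := hLip A B hA hB hAB (-1) (fun i => i.elim0)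
        have h2 := hLip A B hA hB hAB 1 (fun i => i.elim0)
        rw [this, sub_self, norm_zero] at h1 h2
        have h3 : K = 0 := by linarith
        rw [hK', h3, max_self, zero_mul]
    · have h0 : 0 ≤ η := (abs_nonneg _).trans (hη ⟨0, hm⟩ ⟨0, hm⟩)
      exact (hLip A B hA hB hAB η hη).trans (mul_le_mul_of_nonneg_right (le_max_left _ _) h0)
  have hK0 : 0 ≤ K' := le_max_right _ _
  have h1u : Uni (1 : Matrix (Fin m) (Fin m) ℝ) := by
    constructor
    · intro i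
      exact Matrix.one_apply_eq i
    · intro i j hij
      exact Matrix.one_apply_ne (ne_of_gt hij)
  obtain ⟨M, hM1, hM⟩ : ∃ M : ℝ, 1 ≤ M ∧ ∀ A, Uni A → ‖F A‖ ≤ M := by
    refine ⟨‖F 1‖ + K' * 2 + 1, by nlinarith [norm_nonneg (F 1)], fun A hA => ?_⟩
    obtain ⟨B, hB1, hB⟩ : ∃ B : ℝ, 1 ≤ B ∧ ∀ i j, |A i j| ≤ B := by
      refine ⟨1 + ∑ i, ∑ j, |A i j|, ?_, fun i j => ?_⟩
      · have : 0 ≤ ∑ i, ∑ j, |A i j| := sum_nonneg fun i _ => sum_nonneg fun j _ => abs_nonneg _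
        linarith
      · have h1 : |A i j| ≤ ∑ j, |A i j| := single_le_sum (f := fun j => |A i j|) (fun _ _ => abs_nonneg _) (mem_univ j)
        have h2 : ∑ j, |A i j| ≤ ∑ i, ∑ j, |A i j| :=
          single_le_sum (f := fun i => ∑ j, |A i j|) (fun i _ => sum_nonneg fun j _ => abs_nonneg _) (mem_univ i)
        linarith
    obtain ⟨g, hg1, _, hg3⟩ := reduceR hB1 hA hB
    have h2 : ‖F (A * g.map (fun z => (z : ℝ))) - F 1‖ ≤ K' * 2 := by
      have h1le : ∀ i j : Fin m, |(1 : Matrix (Fin m) (Fin m) ℝ) i j| ≤ 1 := by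
        intro i j
        rw [Matrix.one_apply]
        split_ifs <;> simp
      have h2le : ∀ i j : Fin m, |(A * g.map (fun z => (z : ℝ))) i j| ≤ 1 := by
        intro i j
        have := hg3 i j
        rw [abs_le]
        constructor <;> linarith
      apply hLip' _ _ (hA.mul (rl_uni hg1)) h1u
      · intro i j
        exact ⟨(h2le i j).trans (by norm_num), (h1le i j).trans (by norm_num)⟩
      · intro i j
        exact (abs_sub _ _).trans ((add_le_add (h2le i j) (h1le i j)).trans (by norm_num))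
    rw [hinv A g hA hg1] at h2
    have h3 : F A = (F A - F 1) + F 1 := by ring
    rw [h3]
    refine (norm_add_le _ _).trans ?_
    linarith
  have hM0 : 0 < M := by linarith
  set G : Matrix (Fin m) (Fin m) ℝ → ℂ := fun A => F A / (M : ℂ) with hG
  have hFG : ∀ A, F A = M * G A := by
    intro A
    rw [hG]
    have : (M : ℂ) ≠ 0 := by exact_mod_cast hM0.ne'
    field_simp
  have hGinv : Inv G := by
    intro A g hA hg
    rw [hG]
    show F _ / (M : ℂ) = F A / (M : ℂ)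
    rw [hinv A g hA hg]
  have hGn : ∀ A B, ‖G A - G B‖ = ‖F A - F B‖ / M := by
    intro A B
    rw [hG]
    show ‖F A / (M : ℂ) - F B / (M : ℂ)‖ = _
    rw [← sub_div, norm_div, Complex.norm_real, Real.norm_eq_abs, abs_of_pos hM0]
  have hGLip : LipB G K' 2 := by
    intro A B hA hB hAB η hη
    rw [hGn, div_le_iff₀ hM0]
    have h1 := hLip' A B hA hB hAB η hη
    have h2 : 0 ≤ K' * η := (norm_nonneg _).trans h1
    nlinarith
  have hG1 : ∀ A, Uni A → ‖G A‖ ≤ 1 := by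
    intro A hA
    rw [hG]
    show ‖F A / (M : ℂ)‖ ≤ 1
    rw [norm_div, Complex.norm_real, Real.norm_eq_abs, abs_of_pos hM0, div_le_one hM0]
    exact hM A hA
  obtain ⟨C, hC0, hC⟩ := short_poly (nil_cov hGinv hGLip hK0 hG1 D)
  refine ⟨M * C, fun f hf h1 h2 H hH => ?_⟩
  obtain ⟨B, hB, hB0, hBs⟩ := hC f hf h1 h2 H hH
  filter_upwards [hBs] with N hN Q hQ hQd
  calc ∑ n ∈ Icc 1 N, ‖∑ h ∈ Icc 1 H, F (ev (Q n) h) * f (n + h)‖ / n ≤ ∑ n ∈ Icc 1 N, M * (B n / n) := by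
        apply sum_le_sum
        intro n _
        rw [← mul_div_assoc]
        apply div_le_div_of_nonneg_right _ (Nat.cast_nonneg _)
        apply scale hM0 (b := fun h => G (ev (Q n) h)) (fun h => hFG _)
        exact hB n _ ⟨Q n, hQ n, hQd n, rfl⟩
    _ = M * ∑ n ∈ Icc 1 N, B n / n := by rw [mul_sum]
    _ ≤ M * (C * √(H * Real.log H) * Real.log N) := mul_le_mul_of_nonneg_left hN hM0.le
    _ = M * C * √(H * Real.log H) * Real.log N := by ring

/-- closed subgroups -/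
theorem qual {m : ℕ} {G : Set (Matrix (Fin m) (Fin m) ℝ)} (hG : Nilm G) {F : Matrix (Fin m) (Fin m) ℝ → ℂ}
    (hF : ContinuousOn F G) (hFi : ∀ A ∈ G, ∀ g : Matrix (Fin m) (Fin m) ℤ, rl g ∈ G → F (A * rl g) = F A) (D : ℕ)
    {f : ℕ → ℂ} (hf : ∀ n, ‖f n‖ ≤ 1) (h1 : MG (fun n => (f n).re)) (h2 : MG (fun n => (f n).im)) {ε : ℝ} (hε : 0 < ε) :
    ∃ H₀ : ℕ, ∀ H : ℕ, H₀ ≤ H → ∀ᶠ N : ℕ in atTop, ∀ Q : ℕ → Matrix (Fin m) (Fin m) ℝ[X], (∀ n h, ev (Q n) h ∈ G) →
      (∀ n i j, (Q n i j).natDegree ≤ D) →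
        ∑ n ∈ Icc 1 N, ‖∑ h ∈ Icc 1 H, F (ev (Q n) h) * f (n + h)‖ / n ≤ ε * H * Real.log N := by
  obtain ⟨M, hM1, hM⟩ : ∃ M : ℝ, 1 ≤ M ∧ ∀ A ∈ G, ‖F A‖ ≤ M := by
    obtain ⟨R, hR⟩ := hG.cocompact
    have hc : IsCompact (G ∩ {A : Matrix (Fin m) (Fin m) ℝ | ∀ i j, |A i j| ≤ R}) :=
      (box_compact m R).inter_left hG.closed
    obtain ⟨C, hC⟩ := (hc.image_of_continuousOn (hF.mono Set.inter_subset_left)).isBounded.exists_norm_le
    refine ⟨max C 1, le_max_right _ _, fun A hA => ?_⟩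
    obtain ⟨a, ha, g, hg, hA2, haR⟩ := hR A hA
    rw [hA2, hFi a ha g hg]
    exact (hC _ ⟨a, ⟨ha, haR⟩, rfl⟩).trans (le_max_left _ _)
  have hM0 : 0 < M := by linarith
  set F' : Matrix (Fin m) (Fin m) ℝ → ℂ := fun A => F A / (M : ℂ) with hF'
  have hFG : ∀ A, F A = M * F' A := by
    intro A
    rw [hF']
    have : (M : ℂ) ≠ 0 := by exact_mod_cast hM0.ne'
    field_simp
  have hc := nilG_cov hG (F := F') (hF.div_const _) (fun A hA g hg => by
    show F _ / (M : ℂ) = F A / (M : ℂ)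
    rw [hFi A hA g hg]) (fun A hA => by
    show ‖F A / (M : ℂ)‖ ≤ 1
    rw [norm_div, Complex.norm_real, Real.norm_eq_abs, abs_of_pos hM0, div_le_one hM0]
    exact hM A hA) D
  obtain ⟨H₀, hH₀⟩ := short hf h1 h2 hc (show 0 < ε / M by positivity)
  refine ⟨H₀, fun H hH => ?_⟩
  obtain ⟨B, hB, hB0, hBs⟩ := hH₀ H hH
  filter_upwards [hBs] with N hN Q hQ hQd
  calc ∑ n ∈ Icc 1 N, ‖∑ h ∈ Icc 1 H, F (ev (Q n) h) * f (n + h)‖ / n ≤ ∑ n ∈ Icc 1 N, M * (B n / n) := by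
        apply sum_le_sum
        intro n _
        rw [← mul_div_assoc]
        apply div_le_div_of_nonneg_right _ (Nat.cast_nonneg _)
        apply scale hM0 (b := fun h => F' (ev (Q n) h)) (fun h => hFG _)
        exact hB n _ ⟨Q n, ⟨uni_of_ev fun h => hG.uni _ (hQ n h), hQd n, hQ n⟩, rfl⟩
    _ = M * ∑ n ∈ Icc 1 N, B n / n := by rw [mul_sum]
    _ ≤ M * (ε / M * H * Real.log N) := mul_le_mul_of_nonneg_left hN hM0.le
    _ = ε * H * Real.log N := by
        field_simp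

/-- nilrotations are polynomial -/
lemma rot {m : ℕ} {g x : Matrix (Fin m) (Fin m) ℝ} (hg : Uni g) (hx : Uni x) (n : ℕ) :
    ∃ Q : Matrix (Fin m) (Fin m) ℝ[X], Uni Q ∧ (∀ i j, (Q i j).natDegree ≤ m) ∧ ∀ h : ℕ, ev Q h = g ^ (n + h) * x := by
  have hgn : Uni (g ^ n * x) := by
    induction n with
    | zero => rwa [pow_zero, one_mul]
    | succ n ih =>
      rw [pow_succ', mul_assoc]
      exact hg.mul ih
  obtain ⟨Q, hQ, hQd, hQe⟩ := pow_poly hg hgn
  refine ⟨Q, hQ, hQd, fun h => ?_⟩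
  have := hQe h
  unfold ev
  rw [this, ← mul_assoc, ← pow_add, add_comm]

lemma pow_mem {m : ℕ} {G : Set (Matrix (Fin m) (Fin m) ℝ)} (hG : Nilm G) {g x : Matrix (Fin m) (Fin m) ℝ} (hg : g ∈ G)
    (hx : x ∈ G) (n : ℕ) : g ^ n * x ∈ G := by
  induction n with
  | zero => rwa [pow_zero, one_mul]
  | succ n ih =>
    rw [pow_succ', mul_assoc]
    exact hG.mul _ hg _ ih

end Pool.Agent.N318.LS
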