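import Mathlib
import Pool.Agent.N318.LS.C

set_option autoImplicit false

/-! The orbits of a system of zero topological entropy have subexponential covering numbers (helper318). -/

namespace Pool.Agent.N318.LS

open Finset Filter Topology

theorem cover_of_entropy {X : Type} [UniformSpace X] {T : X → X}
    (h0 : Dynamics.coverEntropy T Set.univ = 0) {U : Set (X × X)} (hU : U ∈ uniformity X) {δ : ℝ} (hδ : 0 < δ) :
    ∃ H₀ : ℕ, ∀ H : ℕ, H₀ ≤ H → ∃ s : Finset X, (s.card : ℝ) ≤ Real.exp (δ * H) ∧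
      ∀ x : X, ∃ y ∈ s, ∀ k < H, (T^[k] x, T^[k] y) ∈ U := by
  have h1 : Dynamics.coverEntropyEntourage T Set.univ U < (δ : EReal) := by
    refine (Dynamics.coverEntropyEntourage_le_coverEntropy T Set.univ hU).trans_lt ?_
    rw [h0]
    exact_mod_cast hδ
  have h2 := ExpGrowth.eventually_le_exp h1
  rw [eventually_atTop] at h2
  obtain ⟨H₀, hH₀⟩ := h2
  refine ⟨H₀, fun H hH => ?_⟩
  have h3 := hH₀ H hH
  have h4 : EReal.exp ((δ : EReal) * (H : ℕ)) = ENNReal.ofReal (Real.exp (δ * H)) := by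
    have : (δ : EReal) * ((H : ℕ) : EReal) = ((δ * H : ℝ) : EReal) := by
      push_cast
      rfl
    rw [this, EReal.exp_coe]
  rw [h4] at h3
  have h5 : Dynamics.coverMincard T Set.univ U H < ⊤ := by
    rw [lt_top_iff_ne_top]
    intro h
    rw [h] at h3
    simp at h3
  obtain ⟨s, hs1, hs2⟩ := (Dynamics.coverMincard_finite_iff T Set.univ U H).1 h5
  refine ⟨s, ?_, fun x => ?_⟩
  · rw [← hs2] at h3
    have h6 : ((s.card : ℕ) : ENNReal) ≤ ENNReal.ofReal (Real.exp (δ * H)) := by simpa using h3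
    rw [← ENNReal.ofReal_natCast, ENNReal.ofReal_le_ofReal_iff (Real.exp_pos _).le] at h6
    exact h6
  · obtain ⟨y, hy, hxy⟩ := hs1 (Set.mem_univ x)
    exact ⟨y, hy, fun k hk => Dynamics.mem_dynEntourage.1 hxy k hk⟩

theorem subexp_of_entropy {X : Type} [UniformSpace X] {T : X → X}
    (h0 : Dynamics.coverEntropy T Set.univ = 0) {F : X → ℂ} (hF : UniformContinuous F) (hF1 : ∀ x, ‖F x‖ ≤ 1) :
    SubExp (Set.range fun x : X => fun h : ℕ => F (T^[h] x)) := by
  classical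
  intro δ hδ
  obtain ⟨U, hU, hUd⟩ : ∃ U ∈ uniformity X, ∀ p ∈ U, ‖F p.1 - F p.2‖ ≤ δ := by
    refine ⟨{p : X × X | ‖F p.1 - F p.2‖ ≤ δ}, ?_, fun p hp => hp⟩
    have h1 := hF (Metric.dist_mem_uniformity hδ)
    rw [Filter.mem_map] at h1
    refine mem_of_superset h1 fun p hp => ?_
    rw [Set.mem_preimage, Set.mem_ofPred_eq, dist_eq_norm] at hp
    exact hp.le
  obtain ⟨H₀, hH₀⟩ := cover_of_entropy h0 hU (show 0 < δ / 2 by positivity)
  obtain ⟨H₁, hH₁⟩ := exists_nat_ge (2 : ℝ)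
  refine ⟨max H₀ 1, fun H hH => ?_⟩
  have hH1 : 1 ≤ H := le_trans (le_max_right _ _) hH
  obtain ⟨s, hs1, hs2⟩ := hH₀ (H + 1) ((le_trans (le_max_left _ _) hH).trans (Nat.le_succ H))
  refine ⟨s.image (fun y => fun h : ℕ => F (T^[h] y)), ?_, ?_, ?_⟩
  · have h1 : ((s.image (fun y => fun h : ℕ => F (T^[h] y))).card : ℝ) ≤ s.card := by
      exact_mod_cast card_image_le
    refine h1.trans (hs1.trans (Real.exp_le_exp.2 ?_))
    have : (1 : ℝ) ≤ H := by exact_mod_cast hH1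
    push_cast
    nlinarith
  · intro w hw h
    rw [mem_image] at hw
    obtain ⟨y, _, rfl⟩ := hw
    exact hF1 _
  · rintro a ⟨x, rfl⟩
    obtain ⟨y, hy, hxy⟩ := hs2 x
    refine ⟨_, mem_image_of_mem _ hy, ?_⟩
    have h2 : ∀ h ∈ Icc 1 H, ‖F (T^[h] x) - F (T^[h] y)‖ ≤ δ := by
      intro h hh
      rw [mem_Icc] at hh
      exact hUd _ (hxy h (by omega))
    refine (sum_le_card_nsmul _ _ _ h2).trans (le_of_eq ?_)
    rw [Nat.card_Icc, Nat.add_sub_cancel, nsmul_eq_mul]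
    ring

end Pool.Agent.N318.LS
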