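import Mathlib
import Pool.Agent.N318.LS.D

set_option autoImplicit false

/-! Systems of zero entropy: short sums and long sums, uniformly in the point (helper318). -/

namespace Pool.Agent.N318.LS

open Finset Filter Topology

theorem systems {f : ℕ → ℂ} (hf : ∀ n, ‖f n‖ ≤ 1) (h1 : MG (fun n => (f n).re)) (h2 : MG (fun n => (f n).im))
    {X : Type} [UniformSpace X] [CompactSpace X] {T : X → X} (h0 : Dynamics.coverEntropy T Set.univ = 0)
    {F : X → ℂ} (hF : Continuous F) {ε : ℝ} (hε : 0 < ε) :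
    (∃ H₀ : ℕ, ∀ H : ℕ, H₀ ≤ H → ∀ᶠ N : ℕ in atTop, ∀ x : ℕ → X,
      ∑ n ∈ Icc 1 N, ‖∑ h ∈ Icc 1 H, F (T^[h] (x n)) * f (n + h)‖ / n ≤ ε * H * Real.log N) ∧
    (∀ᶠ N : ℕ in atTop, ∀ x : X, ‖∑ n ∈ Icc 1 N, F (T^[n] x) * f n / (n : ℂ)‖ ≤ ε * Real.log N) := by
  obtain ⟨M, hM1, hM⟩ : ∃ M : ℝ, 1 ≤ M ∧ ∀ x, ‖F x‖ ≤ M := by
    obtain ⟨C, hC⟩ := (isCompact_range hF).isBounded.exists_norm_le
    exact ⟨max C 1, le_max_right _ _, fun x => (hC _ ⟨x, rfl⟩).trans (le_max_left _ _)⟩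
  have hM0 : 0 < M := by linarith
  set G : X → ℂ := fun x => F x / (M : ℂ) with hG
  have hGc : Continuous G := hF.div_const _
  have hG1 : ∀ x, ‖G x‖ ≤ 1 := by
    intro x
    rw [hG]
    show ‖F x / (M : ℂ)‖ ≤ 1
    rw [norm_div, Complex.norm_real, Real.norm_eq_abs, abs_of_pos hM0, div_le_one hM0]
    exact hM x
  have hFG : ∀ x, F x = M * G x := by
    intro x
    rw [hG]
    have : (M : ℂ) ≠ 0 := by exact_mod_cast hM0.ne'
    field_simp
  have hS := subexp_of_entropy h0 (CompactSpace.uniformContinuous_of_continuous hGc) hG1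
  have main : ∀ ε : ℝ, 0 < ε → ∃ H₀ : ℕ, ∀ H : ℕ, H₀ ≤ H → ∀ᶠ N : ℕ in atTop, ∀ x : ℕ → X,
      ∑ n ∈ Icc 1 N, ‖∑ h ∈ Icc 1 H, G (T^[h] (x n)) * f (n + h)‖ / n ≤ ε * H * Real.log N := by
    intro ε hε
    obtain ⟨H₀, hH₀⟩ := short hf h1 h2 hS hε
    refine ⟨H₀, fun H hH => ?_⟩
    obtain ⟨B, hB, _, hBs⟩ := hH₀ H hH
    filter_upwards [hBs] with N hN x
    refine le_trans (sum_le_sum fun n _ => ?_) hN
    exact div_le_div_of_nonneg_right (hB n _ ⟨x n, rfl⟩) (Nat.cast_nonneg _)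
  constructor
  · obtain ⟨H₀, hH₀⟩ := main (ε / M) (by positivity)
    refine ⟨H₀, fun H hH => ?_⟩
    filter_upwards [hH₀ H hH] with N hN x
    have e1 : ∑ n ∈ Icc 1 N, ‖∑ h ∈ Icc 1 H, F (T^[h] (x n)) * f (n + h)‖ / n =
        M * ∑ n ∈ Icc 1 N, ‖∑ h ∈ Icc 1 H, G (T^[h] (x n)) * f (n + h)‖ / n := by
      rw [mul_sum]
      apply sum_congr rfl
      intro n _
      have e2 : ∑ h ∈ Icc 1 H, F (T^[h] (x n)) * f (n + h) = M * ∑ h ∈ Icc 1 H, G (T^[h] (x n)) * f (n + h) := by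
        rw [mul_sum]
        apply sum_congr rfl
        intro h _
        rw [hFG]
        ring
      rw [e2, norm_mul, Complex.norm_real, Real.norm_eq_abs, abs_of_pos hM0]
      ring
    rw [e1]
    calc M * ∑ n ∈ Icc 1 N, ‖∑ h ∈ Icc 1 H, G (T^[h] (x n)) * f (n + h)‖ / n ≤ M * (ε / M * H * Real.log N) :=
          mul_le_mul_of_nonneg_left (hN x) hM0.le
      _ = ε * H * Real.log N := by
          field_simp
  · obtain ⟨H₀, hH₀⟩ := main (ε / (2 * M)) (by positivity)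
    have hH1 : 1 ≤ max H₀ 1 := le_max_right _ _
    set H : ℕ := max H₀ 1 with hHd
    have hHr : (0 : ℝ) < H := by exact_mod_cast hH1
    have hlogt : ∀ᶠ N : ℕ in atTop, 2 * (H : ℝ) * M ≤ ε / 2 * Real.log N := by
      have h1 : Tendsto (fun N : ℕ => ε / 2 * Real.log N) atTop atTop :=
        (Real.tendsto_log_atTop.comp tendsto_natCast_atTop_atTop).const_mul_atTop (by positivity)
      exact h1.eventually_ge_atTop _
    filter_upwards [hH₀ H (le_max_left _ _), hlogt] with N hN hN2 x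
    have e1 := long (b := fun n => G (T^[n] x) * f n) (fun n => by
      rw [norm_mul]
      exact mul_le_one₀ (hG1 _) (norm_nonneg _) (hf _)) H N
    have e2 : ∑ n ∈ Icc 1 N, ‖∑ h ∈ Icc 1 H, G (T^[n + h] x) * f (n + h)‖ / (n : ℝ) =
        ∑ n ∈ Icc 1 N, ‖∑ h ∈ Icc 1 H, G (T^[h] (T^[n] x)) * f (n + h)‖ / n := by
      apply sum_congr rfl
      intro n _
      congr 2
      apply sum_congr rfl
      intro h _
      rw [Nat.add_comm n h, Function.iterate_add_apply]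
    have e3 := hN (fun n => T^[n] x)
    have e4 : ∑ n ∈ Icc 1 N, F (T^[n] x) * f n / (n : ℂ) = M * ∑ n ∈ Icc 1 N, G (T^[n] x) * f n / (n : ℂ) := by
      rw [mul_sum]
      apply sum_congr rfl
      intro n _
      rw [hFG]
      ring
    rw [e4, norm_mul, Complex.norm_real, Real.norm_eq_abs, abs_of_pos hM0]
    have e5 : (H : ℝ) * ‖∑ n ∈ Icc 1 N, G (T^[n] x) * f n / (n : ℂ)‖ ≤
        H * (ε / (2 * M) * Real.log N + 2 * H) := by
      refine e1.trans ?_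
      rw [e2]
      nlinarith
    have e6 := le_of_mul_le_mul_left e5 hHr
    calc M * ‖∑ n ∈ Icc 1 N, G (T^[n] x) * f n / (n : ℂ)‖ ≤ M * (ε / (2 * M) * Real.log N + 2 * H) :=
          mul_le_mul_of_nonneg_left e6 hM0.le
      _ = ε / 2 * Real.log N + 2 * H * M := by
          field_simp
      _ ≤ ε * Real.log N := by linarith

end Pool.Agent.N318.LS
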